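import Pool.Agent.Helper87.VM.Defs

/-!
Statements of all modules of the existence theorem on isotrivial VMRT (`MP_39dd1a_ag`).
-/

set_option autoImplicit false

namespace Pool.Agent.Helper87.VM

open MvPolynomial Pool.Agent.Helper48.VMRT

/-! ### A. general algebraic geometry of cones -/

/-- Products of irreducible sets are irreducible. -/
def ST_PROD : Prop :=
  ∀ (κ₁ κ₂ : Type) [Fintype κ₁] [Fintype κ₂] (S₁ : Set (κ₁ → ℂ)) (S₂ : Set (κ₂ → ℂ)),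
    (vanishingIdeal ℂ S₁).IsPrime → (vanishingIdeal ℂ S₂).IsPrime →
    (vanishingIdeal ℂ {z : κ₁ ⊕ κ₂ → ℂ | (fun i => z (Sum.inl i)) ∈ S₁ ∧
      (fun j => z (Sum.inr j)) ∈ S₂}).IsPrime

/-- Lower bounds for the dimension of the tangent spaces extend from a nonempty open subset. -/
def ST_LB : Prop :=
  ∀ (κ : Type) [Fintype κ] (S : Set (κ → ℂ)) (m : ℕ) (h : MvPolynomial κ ℂ),
    (vanishingIdeal ℂ S).IsPrime → (∃ x ∈ S, eval x h ≠ 0) →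
    (∀ x ∈ S, eval x h ≠ 0 → m ≤ Module.finrank ℂ (tsp S x)) →
    ∀ x ∈ S, m ≤ Module.finrank ℂ (tsp S x)

/-- The Segre product of projective manifolds. -/
def ST_SEG : Prop :=
  ∀ (κ₁ κ₂ : Type) [Fintype κ₁] [Fintype κ₂] (n₁ n₂ : ℕ) (S₁ : Set (κ₁ → ℂ))
    (S₂ : Set (κ₂ → ℂ)), PM n₁ S₁ → PM n₂ S₂ →
    PM (n₁ + n₂) (segS S₁ S₂) ∧
    ∀ x ∈ S₁, x ≠ 0 → ∀ y ∈ S₂, y ≠ 0 → ∀ v : κ₁ × κ₂ → ℂ,
      v ∈ tsp (segS S₁ S₂) (seg x y) ↔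
        ∃ x' ∈ tsp S₁ x, ∃ y' ∈ tsp S₂ y, v = seg x' y + seg x y'

/-- Forms with prescribed behaviour at the points of an orbit. -/
def ST_BUMP0 : Prop :=
  ∀ (G κ : Type) [Group G] [Fintype G] [Fintype κ]
    (ρ : G →* ((κ → ℂ) →ₗ[ℂ] (κ → ℂ))) (S : Set (κ → ℂ)) (T : ℕ), FreeAct ρ S →
    Fintype.card G ≤ T + 1 → ∀ x ∈ S, x ≠ 0 →
      ∃ q : MvPolynomial κ ℂ, HomE T q ∧ eval x q = 1 ∧ ∀ g : G, g ≠ 1 → eval (ρ g x) q = 0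

/-- Invariant forms of degree `k` separate points and tangent vectors. -/
def ST_BUMP : Prop :=
  ∀ (G κ : Type) [Group G] [Fintype G] [Fintype κ]
    (ρ : G →* ((κ → ℂ) →ₗ[ℂ] (κ → ℂ))) (S : Set (κ → ℂ)) (k : ℕ), FreeAct ρ S → 1 ≤ k →
    2 * Fintype.card G ≤ k + 1 →
    (∀ x ∈ S, x ≠ 0 → ∃ p : MvPolynomial κ ℂ, HomE k p ∧ InvE ρ p ∧ eval x p ≠ 0) ∧
    (∀ x ∈ S, x ≠ 0 → ∀ y ∈ S, y ≠ 0 → (∀ (g : G) (c : ℂ), x ≠ c • ρ g y) →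
      ∃ p : MvPolynomial κ ℂ, HomE k p ∧ InvE ρ p ∧ eval x p ≠ 0 ∧ eval y p = 0) ∧
    (∀ x ∈ S, x ≠ 0 → ∀ v : κ → ℂ,
      (∀ p : MvPolynomial κ ℂ, HomE k p → InvE ρ p → dpol p x v = 0) → v = 0)

/-- Forms without common zero on a cone: the coordinate ring of the cone is a finite module over
the ring generated by the forms. -/
def ST_FIN : Prop :=
  ∀ (κ μ : Type) [Fintype κ] [Fintype μ] (S : Set (κ → ℂ)) (k : ℕ)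
    (f : μ → MvPolynomial κ ℂ), 1 ≤ k → ZClosed S → (∀ a : ℂ, ∀ x ∈ S, a • x ∈ S) →
    (∀ i, HomE k (f i)) → (∀ x ∈ S, ev f x = 0 → x = 0) →
    ((Ideal.Quotient.mk (vanishingIdeal ℂ S)).comp (aeval (R := ℂ) f).toRingHom).Finite

/-- The image of a cone under forms without common zero is closed. -/
def ST_IMG : Prop :=
  ∀ (κ μ : Type) [Fintype κ] [Fintype μ] (S : Set (κ → ℂ)) (k : ℕ)
    (f : μ → MvPolynomial κ ℂ), 1 ≤ k → ZClosed S → (∀ a : ℂ, ∀ x ∈ S, a • x ∈ S) →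
    (∀ i, HomE k (f i)) → (∀ x ∈ S, ev f x = 0 → x = 0) → ZClosed (ev f '' S)

/-- In a free and unramified situation the common kernel of the conjugates of `φ` is generated by
the maximal ideal of the small ring. -/
def ST_ALGJ : Prop :=
  ∀ (R : Type) [CommRing R] [Algebra ℂ R] (A : Subalgebra ℂ R) (Γ : Subgroup (R ≃ₐ[ℂ] R))
    (φ : R →ₐ[ℂ] ℂ), IsNoetherianRing A → Module.Finite A R → Finite Γ →
    (∀ γ ∈ Γ, ∀ a ∈ A, γ a = a) →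
    (∀ ψ : R →ₐ[ℂ] ℂ, (∀ a ∈ A, ψ a = φ a) → ∃ γ ∈ Γ, ∀ r, ψ r = φ (γ r)) →
    (∀ γ ∈ Γ, (∀ r, φ (γ r) = φ r) → γ = 1) →
    (∀ r, φ r = 0 → r ∈ Ideal.span {a : R | a ∈ A ∧ φ a = 0} ⊔ (RingHom.ker φ) ^ 2) →
    ∀ r : R, (∀ γ ∈ Γ, φ (γ r) = 0) → r ∈ Ideal.span {a : R | a ∈ A ∧ φ a = 0}

/-- Extension of derivations at a point for a finite extension which is unramified and a free
quotient at the point. -/
def ST_ALG : Prop :=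
  ∀ (R : Type) [CommRing R] [Algebra ℂ R] (A : Subalgebra ℂ R) (Γ : Subgroup (R ≃ₐ[ℂ] R))
    (φ : R →ₐ[ℂ] ℂ) (δ : A →ₗ[ℂ] ℂ), IsNoetherianRing A → Module.Finite A R → Finite Γ →
    (∀ γ ∈ Γ, ∀ a ∈ A, γ a = a) →
    (∀ ψ : R →ₐ[ℂ] ℂ, (∀ a ∈ A, ψ a = φ a) → ∃ γ ∈ Γ, ∀ r, ψ r = φ (γ r)) →
    (∀ γ ∈ Γ, (∀ r, φ (γ r) = φ r) → γ = 1) →
    (∀ r, φ r = 0 → r ∈ Ideal.span {a : R | a ∈ A ∧ φ a = 0} ⊔ (RingHom.ker φ) ^ 2) →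
    (∀ a b : A, δ (a * b) = φ a * δ b + φ b * δ a) →
    ∃ D : R →ₗ[ℂ] ℂ, (∀ r s, D (r * s) = φ r * D s + φ s * D r) ∧ ∀ a : A, D a = δ a

/-- Tangent vectors of a free quotient lift. -/
def ST_TAN : Prop :=
  ∀ (G κ μ : Type) [Group G] [Fintype G] [Fintype κ] [Fintype μ]
    (ρ : G →* ((κ → ℂ) →ₗ[ℂ] (κ → ℂ))) (S : Set (κ → ℂ)) (k : ℕ)
    (f : μ → MvPolynomial κ ℂ), ZClosed S → (∀ a : ℂ, ∀ x ∈ S, a • x ∈ S) → FreeAct ρ S →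
    1 ≤ k → 2 * Fintype.card G ≤ k + 1 → (∀ i, HomE k (f i)) → (∀ i, InvE ρ (f i)) →
    (∀ p : MvPolynomial κ ℂ, HomE k p → InvE ρ p → p ∈ Submodule.span ℂ (Set.range f)) →
    ∀ x ∈ S, x ≠ 0 → ∀ v ∈ tsp (ev f '' S) (ev f x), ∃ u ∈ tsp S x, dev f x u = v

/-- Free quotients of projective manifolds by finite groups. -/
def ST_QUO : Prop :=
  ∀ (G κ μ : Type) [Group G] [Fintype G] [Fintype κ] [Fintype μ] (n : ℕ)
    (ρ : G →* ((κ → ℂ) →ₗ[ℂ] (κ → ℂ))) (S : Set (κ → ℂ)) (k : ℕ)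
    (f : μ → MvPolynomial κ ℂ), PM n S → FreeAct ρ S →
    1 ≤ k → 2 * Fintype.card G ≤ k + 1 → (∀ i, HomE k (f i)) → (∀ i, InvE ρ (f i)) →
    (∀ p : MvPolynomial κ ℂ, HomE k p → InvE ρ p → p ∈ Submodule.span ℂ (Set.range f)) →
    PM n (ev f '' S) ∧
    (∀ x ∈ S, x ≠ 0 → ev f x ≠ 0) ∧
    (∀ x ∈ S, x ≠ 0 → ∀ y ∈ S, y ≠ 0 → ∀ a : ℂ, ev f y = a • ev f x →
      ∃ (g : G) (c : ℂ), y = c • ρ g x) ∧
    (∀ x ∈ S, x ≠ 0 → ∀ v, v ∈ tsp (ev f '' S) (ev f x) ↔ ∃ u ∈ tsp S x, v = dev f x u) ∧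
    (∀ x ∈ S, x ≠ 0 → ∀ u, dev f x u = 0 → u = 0)

/-- The components of the tensor power map. -/
noncomputable def tpp (t : ℕ) {κ : Type} : (Fin t → κ) → MvPolynomial κ ℂ :=
  fun I => ∏ j, X (I j)

/-- Tensor powers (Veronese embeddings). -/
def ST_TP : Prop :=
  ∀ (κ : Type) [Fintype κ] [DecidableEq κ] (n t : ℕ) (B : Set (κ → ℂ)), PM n B → 1 ≤ t →
    PM n (ev (tpp t) '' B) ∧ (∀ b ∈ B, b ≠ 0 → ev (tpp t) b ≠ 0) ∧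
    (∀ b ∈ B, b ≠ 0 → ∀ b' ∈ B, b' ≠ 0 → ∀ a : ℂ, ev (tpp t) b' = a • ev (tpp t) b →
      ∃ c : ℂ, b' = c • b) ∧
    (∀ b ∈ B, b ≠ 0 → ∀ v, v ∈ tsp (ev (tpp t) '' B) (ev (tpp t) b) ↔
      ∃ b' ∈ tsp B b, v = dev (tpp t) b b') ∧
    (∀ b ∈ B, b ≠ 0 → ∀ b', dev (tpp t) b b' = 0 → b' = 0)

/-- Existence of the embedding of the quotient of `B × Y`. -/
def ST_XEX : Prop :=
  ∀ (G κB κY : Type) [Group G] [Fintype G] [Fintype κB] [DecidableEq κB] [Fintype κY]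
    [DecidableEq κY] (π : G →* Equiv.Perm κB) (B : Set (κB → ℂ))
    (ρY : G →* ((κY → ℂ) →ₗ[ℂ] (κY → ℂ))) (Y : Set (κY → ℂ)) (w k t : ℕ),
    PM 1 B → FreeAct (prep π) B → PM w Y → (∀ g, ∀ y ∈ Y, ρY g y ∈ Y) → 1 ≤ k →
    2 * Fintype.card G ≤ k + 1 → 1 ≤ t →
    ∃ (N : ℕ) (E : Fin (N + 1) → MvPolynomial (κB ⊕ κY) ℂ),
      XD w (k * t) k (prep π) B ρY Y E

/-! ### B. the curve -/

/-- Hensel's lemma for a product of distinct linear factors over power series. -/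
def ST_HEN : Prop :=
  ∀ (E : Type) [Field E] (n : ℕ) (g : Polynomial (PowerSeries E)) (a : Fin n → E), g.Monic →
    Function.Injective a →
    g.map (PowerSeries.constantCoeff (R := E)) = ∏ i, (Polynomial.X - Polynomial.C (a i)) →
    ∃ b : Fin n → PowerSeries E, (∀ i, PowerSeries.constantCoeff (b i) = a i) ∧
      g = ∏ i, (Polynomial.X - Polynomial.C (b i))

/-- A transposition of two roots of `X^(m+2) + αX + β`. -/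
def ST_GALA : Prop :=
  ∀ m : ℕ, 1 ≤ m → ∃ (O : Type) (_ : CommRing O) (_ : IsDomain O) (_ : Algebra ℂ O)
    (x y : O) (r : Fin m → O) (ι : O →ₐ[ℂ] O) (α β : O),
    (Polynomial.X - Polynomial.C x) * (Polynomial.X - Polynomial.C y) *
      ∏ i, (Polynomial.X - Polynomial.C (r i)) =
        Polynomial.X ^ (m + 2) + Polynomial.C α * Polynomial.X + Polynomial.C β ∧
    AlgebraicIndependent ℂ ![x, y] ∧ ι x = y ∧ ι y = x ∧ ∀ i, ι (r i) = r i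

/-- Transcendental roots of `X^M + αX + β` and all their permutations. -/
def ST_GAL : Prop :=
  ∀ M : ℕ, 3 ≤ M → ∃ (L : Type) (_ : Field L) (_ : Algebra ℂ L) (r : Fin M → L),
    (∀ j, 1 ≤ j → j + 2 ≤ M → aeval r (esymm (Fin M) ℂ j) = 0) ∧
    AlgebraicIndependent ℂ
      ![aeval r (esymm (Fin M) ℂ (M - 1)), aeval r (esymm (Fin M) ℂ M)] ∧
    ∀ (σ : Equiv.Perm (Fin M)) (P : MvPolynomial (Fin M) ℂ), aeval r P = 0 →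
      aeval (fun i => r (σ i)) P = 0

/-- Distinct coordinates of the points of the curve. -/
def ST_CDIST : Prop :=
  ∀ (κ : Type) [Fintype κ], 3 ≤ Fintype.card κ → ∀ z ∈ Bc κ, z ≠ 0 →
    Fintype.card κ ≤ (Set.range z).ncard + 1 ∧ ∀ i j, i ≠ j → ¬ (z i = 0 ∧ z j = 0)

/-- The curve is irreducible. -/
def ST_CIRR : Prop :=
  ∀ (κ : Type) [Fintype κ], 3 ≤ Fintype.card κ → (vanishingIdeal ℂ (Bc κ)).IsPrime

/-- The tangent spaces of the cone over the curve have dimension at most two. -/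
def ST_CUP : Prop :=
  ∀ (κ : Type) [Fintype κ], 3 ≤ Fintype.card κ → ∀ z ∈ Bc κ, z ≠ 0 →
    Module.finrank ℂ (tsp (Bc κ) z) ≤ 2

/-- The tangent spaces of the cone over the curve have dimension at least two. -/
def ST_CLO : Prop :=
  ∀ (κ : Type) [Fintype κ], 3 ≤ Fintype.card κ → ∀ z ∈ Bc κ,
    2 ≤ Module.finrank ℂ (tsp (Bc κ) z)

/-- The group acts freely on the curve. -/
def ST_CFREE : Prop :=
  ∀ (G : Type) [Group G] [Fintype G] [DecidableEq G] (g : G), g ≠ 1 →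
    ∀ z ∈ Bc ((Fin 2 × G) ⊕ Fin 2), z ≠ 0 → ∀ a : ℂ,
      ¬ ((∀ (e : Fin 2) (h : G), z (Sum.inl (e, g⁻¹ * h)) = a * z (Sum.inl (e, h))) ∧
        ∀ j : Fin 2, z (Sum.inr j) = a * z (Sum.inr j))

/-- Every finite group acts freely by coordinate permutations on a projective curve. -/
def ST_CEX : Prop :=
  ∀ (G : Type) [Group G] [Fintype G], ∃ (κB : Type) (_ : Fintype κB) (_ : DecidableEq κB)
    (π : G →* Equiv.Perm κB) (B : Set (κB → ℂ)), PM 1 B ∧ FreeAct (prep π) B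

/-! ### C. the blow-up -/

/-- The ideal of `Z ⊂ {x₀ = 0}`. -/
noncomputable def AI {w : ℕ} (Z : Set (Fin w → ℂ)) : Ideal (MvPolynomial (Option (Fin w)) ℂ) :=
  vanishingIdeal ℂ {x : Option (Fin w) → ℂ | x none = 0 ∧ (fun i => x (some i)) ∈ Z}

/-- Local generation of the ideal by the forms `F`. -/
def ST_FLOC : Prop :=
  ∀ (ν : Type) [Fintype ν] (w : ℕ) (Z : Set (Fin w → ℂ)) (a : ℕ)
    (F : ν → MvPolynomial (Option (Fin w)) ℂ), ZClosed Z → (∀ c : ℂ, ∀ z ∈ Z, c • z ∈ Z) →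
    SmoothCone Z → (∀ j, F j ∈ AI Z) → (∀ j, HomE a (F j)) →
    (∀ p ∈ AI Z, HomE a p → p ∈ Submodule.span ℂ (Set.range F)) →
    AI Z = Ideal.span {p | p ∈ AI Z ∧ ∃ d ≤ a, HomE d p} →
    ∀ z ∈ Z, z ≠ 0 → ∃ (c : ℕ) (I : Fin c → ν),
      LinearIndependent ℂ (fun i => (fun o => eval (ov 0 z) (pderiv o (F (I i))) :
        Option (Fin w) → ℂ)) ∧
      ∃ (h : MvPolynomial (Option (Fin w)) ℂ) (P : ν → Fin c → MvPolynomial (Option (Fin w)) ℂ),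
        eval (ov 0 z) h ≠ 0 ∧ ∀ j, h * F j = ∑ i, P j i * F (I i)

/-- Existence of the forms `F`. -/
def ST_FDEX : Prop :=
  ∀ (G : Type) [Group G] [Fintype G] (w : ℕ) (Z : Set (Fin w → ℂ))
    (ρ : G →* ((Fin w → ℂ) →ₗ[ℂ] (Fin w → ℂ))), ZClosed Z →
    (∀ a : ℂ, ∀ z ∈ Z, a • z ∈ Z) → Z.Nonempty → SmoothCone Z →
    (∀ g, ∀ z ∈ Z, ρ g z ∈ Z) →
    ∃ (ν : Type) (_ : Fintype ν) (_ : DecidableEq ν) (a : ℕ)
      (F : ν → MvPolynomial (Option (Fin w)) ℂ) (ρν : G →* ((ν → ℂ) →ₗ[ℂ] (ν → ℂ))),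
      FD Z ρ a F ρν

section C

/-- The blow-up is closed. -/
def ST_YCL : Prop :=
  ∀ (κ ν : Type) [Fintype κ] [Fintype ν] (a : ℕ) (F : ν → MvPolynomial κ ℂ),
    (∀ j, HomE a (F j)) → ZClosed (Yc F)

/-- Fibres of the blow-up over `Z`. -/
def ST_YFIB : Prop :=
  ∀ (G ν : Type) [Group G] [Fintype ν] (w : ℕ) (Z : Set (Fin w → ℂ))
    (ρ : G →* ((Fin w → ℂ) →ₗ[ℂ] (Fin w → ℂ))) (a : ℕ)
    (F : ν → MvPolynomial (Option (Fin w)) ℂ) (ρν : G →* ((ν → ℂ) →ₗ[ℂ] (ν → ℂ))),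
    FD Z ρ a F ρν → ∀ z ∈ Z, z ≠ 0 → ∀ η : ν → ℂ, Syz F (ov 0 z) η →
      ∃ u : Option (Fin w) → ℂ, ∀ j, η j = dpol (F j) (ov 0 z) u

/-- The blow-up is irreducible. -/
def ST_YIR : Prop :=
  ∀ (G ν : Type) [Group G] [Fintype ν] (w : ℕ) (Z : Set (Fin w → ℂ))
    (ρ : G →* ((Fin w → ℂ) →ₗ[ℂ] (Fin w → ℂ))) (a : ℕ)
    (F : ν → MvPolynomial (Option (Fin w)) ℂ) (ρν : G →* ((ν → ℂ) →ₗ[ℂ] (ν → ℂ))),
    FD Z ρ a F ρν → (vanishingIdeal ℂ (Yc F)).IsPrime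

/-- Upper bound for the tangent spaces of the blow-up. -/
def ST_YUP : Prop :=
  ∀ (G ν : Type) [Group G] [Fintype ν] (w : ℕ) (Z : Set (Fin w → ℂ))
    (ρ : G →* ((Fin w → ℂ) →ₗ[ℂ] (Fin w → ℂ))) (a : ℕ)
    (F : ν → MvPolynomial (Option (Fin w)) ℂ) (ρν : G →* ((ν → ℂ) →ₗ[ℂ] (ν → ℂ))),
    FD Z ρ a F ρν → ∀ y ∈ Yc F, y ≠ 0 → Module.finrank ℂ (tsp (Yc F) y) ≤ w + 1

/-- Lower bound for the tangent spaces of the blow-up. -/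
def ST_YLO : Prop :=
  ∀ (G ν : Type) [Group G] [Fintype ν] (w : ℕ) (Z : Set (Fin w → ℂ))
    (ρ : G →* ((Fin w → ℂ) →ₗ[ℂ] (Fin w → ℂ))) (a : ℕ)
    (F : ν → MvPolynomial (Option (Fin w)) ℂ) (ρν : G →* ((ν → ℂ) →ₗ[ℂ] (ν → ℂ))),
    FD Z ρ a F ρν → ∀ y ∈ Yc F, w + 1 ≤ Module.finrank ℂ (tsp (Yc F) y)

/-- The blow-up is a projective manifold. -/
def ST_YPM : Prop :=
  ∀ (G ν : Type) [Group G] [Fintype ν] (w : ℕ) (Z : Set (Fin w → ℂ))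
    (ρ : G →* ((Fin w → ℂ) →ₗ[ℂ] (Fin w → ℂ))) (a : ℕ)
    (F : ν → MvPolynomial (Option (Fin w)) ℂ) (ρν : G →* ((ν → ℂ) →ₗ[ℂ] (ν → ℂ))),
    FD Z ρ a F ρν → PM w (Yc F)

/-- The group acts on the blow-up. -/
def ST_YACT : Prop :=
  ∀ (G ν : Type) [Group G] [Fintype ν] [DecidableEq ν] (w : ℕ) (Z : Set (Fin w → ℂ))
    (ρ : G →* ((Fin w → ℂ) →ₗ[ℂ] (Fin w → ℂ))) (a : ℕ)
    (F : ν → MvPolynomial (Option (Fin w)) ℂ) (ρν : G →* ((ν → ℂ) →ₗ[ℂ] (ν → ℂ))),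
    FD Z ρ a F ρν → ∀ g, ∀ y ∈ Yc F, tens (oext ρ) ρν g y ∈ Yc F

end C

/-! ### D. binary forms -/

/-- Rank one matrices of binary forms. -/
def ST_FAC1 : Prop :=
  ∀ (κ₁ κ₂ : Type) [Fintype κ₁] [Fintype κ₂] (d : ℕ) (u : κ₁ × κ₂ → Polynomial ℂ),
    Mor d u → (∀ s t : ℂ, ∃ (x : κ₁ → ℂ) (y : κ₂ → ℂ), hevv d u s t = seg x y) →
    ∃ (d₁ d₂ : ℕ) (p : κ₁ → Polynomial ℂ) (q : κ₂ → Polynomial ℂ),
      d₁ + d₂ = d ∧ Mor d₁ p ∧ Mor d₂ q ∧ ∀ i j, u (i, j) = p i * q j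

/-- Pure powers of vectors of binary forms. -/
def ST_FAC2 : Prop :=
  ∀ (κ : Type) [Fintype κ] (r d : ℕ) (u : (Fin r → κ) → Polynomial ℂ), 1 ≤ r → Mor d u →
    (∀ s t : ℂ, ∃ v : κ → ℂ, ∀ I, hevv d u s t I = ∏ j, v (I j)) →
    ∃ (e : ℕ) (q : κ → Polynomial ℂ), d = r * e ∧ Mor e q ∧ ∀ I, u I = ∏ j, q (I j)

/-! ### E. curves in the quotient -/

/-- All morphisms of degree at most `dg` from the line to `X` are vertical. -/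
def ST_VERT : Prop :=
  ∀ D : VD, D.Good → ∀ (e : ℕ) (c : Fin (D.N + 1) → Polynomial ℂ), e ≤ D.dg → Mor e c →
    (∀ s t : ℂ, hevv e c s t ∈ D.X) →
    ∃ b ∈ D.B, b ≠ 0 ∧ ∀ s t : ℂ, (s, t) ≠ (0, 0) → ∃ y ∈ D.Y, hevv e c s t = ev2 D.E b y

/-- Vertical morphisms lift to the blow-up. -/
def ST_LIFT : Prop :=
  ∀ D : VD, D.Good → ∀ (e : ℕ) (c : Fin (D.N + 1) → Polynomial ℂ) (b : D.κB → ℂ),
    Mor e c → b ∈ D.B → b ≠ 0 →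
    (∀ s t : ℂ, (s, t) ≠ (0, 0) → ∃ y ∈ D.Y, hevv e c s t = ev2 D.E b y) →
    ∃ (e' : ℕ) (y : Option (Fin D.w) × D.ν → Polynomial ℂ), e = D.k * e' ∧ Mor e' y ∧
      (∀ s t : ℂ, hevv e' y s t ∈ D.Y) ∧
      ∀ s t : ℂ, hevv e c s t = ev2 D.E b (hevv e' y s t)

/-- Morphisms of degree at most `a` to the blow-up with image not at infinity. -/
def ST_YC : Prop :=
  ∀ D : VD, D.Good → ∀ (e : ℕ) (y : Option (Fin D.w) × D.ν → Polynomial ℂ), e ≤ D.a →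
    Mor e y → (∀ s t : ℂ, hevv e y s t ∈ D.Y) →
    (∃ (s t : ℂ) (j : D.ν), hevv e y s t (none, j) ≠ 0) →
    e = 0 ∨ (e = D.a ∧ ∃ (p q : Option (Fin D.w) → ℂ) (c : ℂ), c ≠ 0 ∧
      LinearIndependent ℂ ![p, q] ∧ (p none ≠ 0 ∨ q none ≠ 0) ∧
      (fun i => q none * p (some i) - p none * q (some i)) ∈ D.Z ∧
      ∀ s t : ℂ, D.gr (s • p + t • q) =
        (c * (s * p none + t * q none)) • hevv e y s t)

/-- `L` cuts out the divisor at infinity of `X`. -/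
def VD.IsBad (D : VD) (L : Submodule ℂ (Fin (D.N + 1) → ℂ)) : Prop :=
  ∀ b ∈ D.B, b ≠ 0 → ∀ y ∈ D.Y, y ≠ 0 → (ev2 D.E b y ∈ L ↔ ∀ j, y (none, j) = 0)

/-- The divisor at infinity is a linear section. -/
def ST_BAD : Prop := ∀ D : VD, D.Good → ∃ L, D.IsBad L

/-- Classification of morphisms of degree at most `dg` with image not at infinity. -/
def ST_CURV : Prop :=
  ∀ D : VD, D.Good → ∀ L, D.IsBad L → ∀ (e : ℕ) (c : Fin (D.N + 1) → Polynomial ℂ), 1 ≤ e →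
    e ≤ D.dg → Mor e c → (∀ s t : ℂ, hevv e c s t ∈ D.X) → (∃ s t : ℂ, hevv e c s t ∉ L) →
    e = D.dg ∧ ∃ b p q, D.HP b p q ∧ ∀ s t : ℂ,
      (s * p none + t * q none) ^ D.k • hevv e c s t = ev2 D.E b (D.gr (s • p + t • q))

/-- The lift of a member of the family to the blow-up. -/
def ST_MEM : Prop :=
  ∀ D : VD, D.Good → ∀ b p q, D.HP b p q → ∀ c : Coef D.N D.dg,
    (∀ s t : ℂ, (s * p none + t * q none) ^ D.k • pt c s t =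
      ev2 D.E b (D.gr (s • p + t • q))) →
    ∃ (y : Option (Fin D.w) × D.ν → Polynomial ℂ) (η : D.ν → Polynomial ℂ),
      Mor D.a y ∧ Mor (D.a - 1) η ∧
      (∀ s t : ℂ, hevv D.a y s t = seg (s • p + t • q) (hevv (D.a - 1) η s t)) ∧
      (∀ s t : ℂ, hevv D.a y s t ∈ D.Y) ∧
      (∀ s t : ℂ, pt c s t = ev2 D.E b (hevv D.a y s t)) ∧
      ∀ s t : ℂ, (s * p none + t * q none) • hevv (D.a - 1) η s t = ev D.F (s • p + t • q)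

/-- Polynomial parametrization of the family. -/
def ST_PAR : Prop :=
  ∀ D : VD, D.Good →
    ∃ Ψ : Fin (D.N + 1) × Fin (D.dg + 1) →
      MvPolynomial (D.κB ⊕ (Fin D.w ⊕ (Fin 4 ⊕ Fin D.w))) ℂ,
    ∀ (b : D.κB → ℂ) (u : Fin D.w → ℂ) (σ : Fin 4 → ℂ), ∀ z ∈ D.Z, ∀ s t : ℂ,
      (s * σ 0 + t * σ 1) ^ D.k •
        pt (ev Ψ (Sum.elim b (Sum.elim u (Sum.elim σ z))) : Coef D.N D.dg) s t =
      ev2 D.E b (D.gr (s • ov (σ 0) (σ 0 • u + σ 2 • z) + t • ov (σ 1) (σ 1 • u + σ 3 • z)))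

/-- The members of the family are immersed injective curves. -/
def ST_HCUR : Prop :=
  ∀ D : VD, D.Good → ∀ c ∈ D.H, IsCurve D.X c ∧
    ∀ s t : ℂ, (s, t) ≠ (0, 0) → SmoothAt c s t

/-- The family is irreducible. -/
def ST_HIRR : Prop := ∀ D : VD, D.Good → (vanishingIdeal ℂ D.H).IsPrime

/-- Tuples of binary forms with a common zero form a closed set. -/
def ST_RES : Prop :=
  ∀ N d : ℕ, ZClosed {c : Coef N d | ∃ s t : ℂ, (s, t) ≠ (0, 0) ∧ pt c s t = 0}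

/-- The group acts on the data of the members of the family. -/
def ST_HTR : Prop :=
  ∀ D : VD, D.Good → ∀ g : D.G,
    (∀ x, D.gr (oext D.ρ g x) = D.ρY g (D.gr x)) ∧
    (∀ b p q, D.HP b p q → D.HP (prep D.π g b) (oext D.ρ g p) (oext D.ρ g q)) ∧
    ∀ b x, ev2 D.E (prep D.π g b) (D.gr (oext D.ρ g x)) = ev2 D.E b (D.gr x)

/-- The family is locally closed, and open in the space of all curves. -/
def ST_HLC : Prop :=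
  ∀ D : VD, D.Good → (∃ A B : Set (Coef D.N D.dg), ZClosed A ∧ ZClosed B ∧ D.H = A \ B) ∧
    ∃ C : Set (Coef D.N D.dg), ZClosed C ∧ ∀ c, IsCurve D.X c → (c ∈ D.H ↔ c ∉ C)

/-- Normal form of the points not at infinity. -/
def ST_NF : Prop :=
  ∀ D : VD, D.Good → ∀ L, D.IsBad L → ∀ v ∈ D.X, v ≠ 0 → v ∉ L →
    ∃ b ∈ D.B, b ≠ 0 ∧ ∃ u : Fin D.w → ℂ, v = ev2 D.E b (D.gr (ov 1 u))

/-- Curves through the general point. -/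
def ST_THR : Prop :=
  ∀ D : VD, D.Good → ∀ L, D.IsBad L → (∃ v ∈ D.X, v ≠ 0 ∧ v ∉ L) ∧
    ∀ v ∈ D.X, v ≠ 0 → v ∉ L →
      (∃ c ∈ D.H, ∃ s t : ℂ, (s, t) ≠ (0, 0) ∧ pt c s t = v) ∧
      ∀ e < D.dg, ∀ c : Coef D.N e, IsCurve D.X c → ∀ s t : ℂ, (s, t) ≠ (0, 0) → pt c s t ≠ v

/-- The tangent vector of the line with direction `z` through the point over `(1, u)`. -/
noncomputable def VD.dTh (D : VD) (b : D.κB → ℂ) (u z : Fin D.w → ℂ) : Fin (D.N + 1) → ℂ :=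
  d2 D.E b (D.gr (ov 1 u)) 0
    (seg (ov 0 z) (ev D.F (ov 1 u)) + seg (ov 1 u) (dev D.F (ov 1 u) (ov 0 z)))

/-- The tangents of the family at a general point. -/
def ST_VT : Prop :=
  ∀ D : VD, D.Good → ∀ L, D.IsBad L → ∀ v ∈ D.X, v ≠ 0 → v ∉ L →
    ∃ b ∈ D.B, b ≠ 0 ∧ ∃ u : Fin D.w → ℂ, v = ev2 D.E b (D.gr (ov 1 u)) ∧
      tangents D.H v = {u' | ∃ z ∈ D.Z, ∃ a : ℂ, u' = D.dTh b u z + a • v}

/-- The tangent space of `X` at a point not at infinity. -/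
def ST_VTS : Prop :=
  ∀ D : VD, D.Good → ∀ b ∈ D.B, b ≠ 0 → ∀ u : Fin D.w → ℂ,
    ∃ g : ((Fin D.w → ℂ) × ℂ) →ₗ[ℂ] (Fin (D.N + 1) → ℂ), Function.Injective g ∧
      (∀ z, g (z, 0) = D.dTh b u z) ∧
      LinearMap.range g ⊓ Submodule.span ℂ {ev2 D.E b (D.gr (ov 1 u))} = ⊥ ∧
      LinearMap.range g ⊔ Submodule.span ℂ {ev2 D.E b (D.gr (ov 1 u))} =
        tsp D.X (ev2 D.E b (D.gr (ov 1 u)))

/-- Isotriviality at the general point. -/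
def ST_ISO : Prop :=
  ∀ D : VD, D.Good → ∀ L, D.IsBad L → ∀ v ∈ D.X, v ≠ 0 → v ∉ L →
    ∃ g : ((Fin D.w → ℂ) × ℂ) →ₗ[ℂ] (Fin (D.N + 1) → ℂ), Function.Injective g ∧
      LinearMap.range g ⊓ Submodule.span ℂ {v} = ⊥ ∧
      LinearMap.range g ⊔ Submodule.span ℂ {v} = tangentSpace D.X v ∧
      vmrtCone D.H v = {u | ∃ z ∈ D.Z, ∃ a : ℂ, u = g (z, 0) + a • v}

/-- The existence theorem for `Z ⊂ ℙ(ℂ^w) ⊂ ℙ(ℂ^w × ℂ)`. -/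
def ST_MAIN : Prop :=
  ∀ (w : ℕ) (ι : Type) [Finite ι] [Nonempty ι] (Zi : ι → Set (Fin w → ℂ)) (G : Type)
    [Group G] [Fintype G] (ρ : G →* ((Fin w → ℂ) →ₗ[ℂ] (Fin w → ℂ))),
    (∀ i, ZClosed (Zi i)) → (∀ i, ∀ a : ℂ, ∀ z ∈ Zi i, a • z ∈ Zi i) →
    (∀ i, (vanishingIdeal ℂ (Zi i)).IsPrime) → (∀ i, ∃ z ∈ Zi i, z ≠ 0) →
    SmoothCone (⋃ i, Zi i) → (∀ g, ∀ z ∈ ⋃ i, Zi i, ρ g z ∈ ⋃ i, Zi i) →
    (∀ i j, ∃ g, (fun z => ρ g z) '' Zi i = Zi j) →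
    ∃ (N d : ℕ) (X : Set (Fin (N + 1) → ℂ)) (H : Set (Coef N d)),
      IsProjManifold (w + 1) N X ∧ IsFamily X H ∧ IsMinimal X H ∧
      ∃ A : Set (Fin (N + 1) → ℂ), ZClosed A ∧ (∃ v ∈ X, v ≠ 0 ∧ v ∉ A) ∧
        ∀ v ∈ X, v ≠ 0 → v ∉ A →
          ∃ g : ((Fin w → ℂ) × ℂ) →ₗ[ℂ] (Fin (N + 1) → ℂ), Function.Injective g ∧
            LinearMap.range g ⊓ Submodule.span ℂ {v} = ⊥ ∧
            LinearMap.range g ⊔ Submodule.span ℂ {v} = tangentSpace X v ∧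
            vmrtCone H v = {u | ∃ z ∈ ⋃ i, Zi i, ∃ a : ℂ, u = g (z, 0) + a • v}

/-- Nonsingularity inside a hyperplane. -/
def ST_SMR : Prop :=
  ∀ (w n : ℕ) (φ : ((Fin w → ℂ) × ℂ) ≃ₗ[ℂ] (Fin n → ℂ)) (Z : Set (Fin n → ℂ)),
    (∀ x ∈ Z, ∃ z, x = φ (z, 0)) → SmoothCone Z → SmoothCone {z : Fin w → ℂ | φ (z, 0) ∈ Z}

/-- The final theorem. -/
def ST_FINAL : Prop :=
  ∀ (n : ℕ) (ι : Type) [Finite ι] [Nonempty ι] (Z : ι → Set (Fin n → ℂ)),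
    IsComponents Z → SmoothCone (⋃ i, Z i) →
    (∃ l : (Fin n → ℂ) →ₗ[ℂ] ℂ, l ≠ 0 ∧ ∀ i, ∀ z ∈ Z i, l z = 0) →
    ∀ G : Subgroup ((Fin n → ℂ) ≃ₗ[ℂ] (Fin n → ℂ)), Finite G →
    (∀ g ∈ G, g '' (⋃ i, Z i) = ⋃ i, Z i) →
    (∀ i j : ι, ∃ g ∈ G, g '' Z i = Z j) →
    ∃ (N d : ℕ) (X : Set (Fin (N + 1) → ℂ)) (H : Set (Coef N d)),
      IsProjManifold n N X ∧ IsFamily X H ∧ IsMinimal X H ∧ Isotrivial X H (⋃ i, Z i)

end Pool.Agent.Helper87.VM
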