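import Pool.Agent.Helper87.VM.Stmts

/-!
Library for the existence theorem on isotrivial VMRT (`MP_39dd1a_ag`): differentials of
polynomials, homogeneous polynomials, closed sets, tangent spaces, binary forms.
-/

set_option autoImplicit false

namespace Pool.Agent.Helper87.VM

open MvPolynomial Pool.Agent.Helper48.VMRT

/-! ### vanishing ideals and closed sets -/

section Closed

variable {κ : Type}

theorem mem_vI {S : Set (κ → ℂ)} {p : MvPolynomial κ ℂ} :
    p ∈ vanishingIdeal ℂ S ↔ ∀ x ∈ S, eval x p = 0 := by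
  rw [mem_vanishingIdeal_iff]
  simp only [aeval_eq_eval]

theorem zclosed_iff {S : Set (κ → ℂ)} :
    ZClosed S ↔ ∀ x, (∀ p ∈ vanishingIdeal ℂ S, eval x p = 0) → x ∈ S := by
  constructor
  · intro h x hx
    rw [← h]
    intro p hp
    rw [aeval_eq_eval]
    exact hx p hp
  · intro h
    apply Set.Subset.antisymm
    · intro x hx
      refine h x fun p hp => ?_
      have := hx p hp
      rwa [aeval_eq_eval] at this
    · exact zeroLocus_vanishingIdeal_le S

/-- A set defined by polynomial equations is closed. -/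
theorem zclosed_eqs (A : Set (MvPolynomial κ ℂ)) : ZClosed {x : κ → ℂ | ∀ p ∈ A, eval x p = 0} := by
  rw [zclosed_iff]
  intro x hx p hp
  exact hx p (mem_vI.2 fun y hy => hy p hp)

theorem zclosed_of_eqs {S : Set (κ → ℂ)} (A : Set (MvPolynomial κ ℂ))
    (h : ∀ x, x ∈ S ↔ ∀ p ∈ A, eval x p = 0) : ZClosed S := by
  have : S = {x : κ → ℂ | ∀ p ∈ A, eval x p = 0} := Set.ext h
  rw [this]
  exact zclosed_eqs A

theorem zclosed_iInter {J : Sort*} {S : J → Set (κ → ℂ)} (h : ∀ j, ZClosed (S j)) :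
    ZClosed (⋂ j, S j) := by
  rw [zclosed_iff]
  intro x hx
  rw [Set.mem_iInter]
  intro j
  refine zclosed_iff.1 (h j) x fun p hp => hx p (mem_vI.2 fun y hy => ?_)
  exact mem_vI.1 hp y (Set.mem_iInter.1 hy j)

theorem zclosed_inter {S T : Set (κ → ℂ)} (hS : ZClosed S) (hT : ZClosed T) :
    ZClosed (S ∩ T) := by
  rw [zclosed_iff]
  intro x hx
  exact ⟨zclosed_iff.1 hS x fun p hp => hx p (mem_vI.2 fun y hy => mem_vI.1 hp y hy.1),
    zclosed_iff.1 hT x fun p hp => hx p (mem_vI.2 fun y hy => mem_vI.1 hp y hy.2)⟩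

theorem zclosed_union {S T : Set (κ → ℂ)} (hS : ZClosed S) (hT : ZClosed T) :
    ZClosed (S ∪ T) := by
  rw [zclosed_iff]
  intro x hx
  by_contra hn
  rw [Set.mem_union, not_or] at hn
  obtain ⟨h1, h2⟩ := hn
  have e1 : ∃ p ∈ vanishingIdeal ℂ S, eval x p ≠ 0 := by
    by_contra hh
    push Not at hh
    exact h1 (zclosed_iff.1 hS x hh)
  have e2 : ∃ p ∈ vanishingIdeal ℂ T, eval x p ≠ 0 := by
    by_contra hh
    push Not at hh
    exact h2 (zclosed_iff.1 hT x hh)
  obtain ⟨p, hp, hp0⟩ := e1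
  obtain ⟨q, hq, hq0⟩ := e2
  have := hx (p * q) (mem_vI.2 fun y hy => by
    rw [map_mul]
    rcases hy with hy | hy
    · rw [mem_vI.1 hp y hy, zero_mul]
    · rw [mem_vI.1 hq y hy, mul_zero])
  rw [map_mul] at this
  exact (mul_ne_zero hp0 hq0) this

theorem zclosed_empty : ZClosed (∅ : Set (κ → ℂ)) := by
  rw [zclosed_iff]
  intro x hx
  have := hx 1 (mem_vI.2 fun y hy => absurd hy (Set.notMem_empty y))
  simp at this

theorem zclosed_iUnion {J : Type*} [Finite J] {S : J → Set (κ → ℂ)} (h : ∀ j, ZClosed (S j)) :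
    ZClosed (⋃ j, S j) := by
  classical
  cases nonempty_fintype J
  have key : ∀ A : Finset J, ZClosed (⋃ j ∈ A, S j) := by
    intro A
    induction A using Finset.induction_on with
    | empty => simpa using (zclosed_empty : ZClosed (∅ : Set (κ → ℂ)))
    | insert a A ha ih =>
      rw [Finset.set_biUnion_insert]
      exact zclosed_union (h a) ih
  simpa using key Finset.univ

/-- The evaluation of a substituted polynomial. -/
theorem eval_aeval {κ' : Type} (f : κ' → MvPolynomial κ ℂ) (p : MvPolynomial κ' ℂ)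
    (x : κ → ℂ) : eval x (aeval f p) = eval (ev f x) p := by
  have h : (eval x).comp ((aeval f : MvPolynomial κ' ℂ →ₐ[ℂ] MvPolynomial κ ℂ) :
      MvPolynomial κ' ℂ →+* MvPolynomial κ ℂ) = eval (ev f x) := by
    apply MvPolynomial.ringHom_ext
    · intro r; simp
    · intro i; simp [ev]
  exact congrArg (fun φ : MvPolynomial κ' ℂ →+* ℂ => φ p) h

/-- Preimages of closed sets under polynomial maps are closed. -/
theorem zclosed_preimage {κ' : Type} {S : Set (κ' → ℂ)} (hS : ZClosed S)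
    (f : κ' → MvPolynomial κ ℂ) : ZClosed {x : κ → ℂ | ev f x ∈ S} := by
  rw [zclosed_iff]
  intro x hx
  refine zclosed_iff.1 hS _ fun p hp => ?_
  rw [← eval_aeval]
  exact hx _ (mem_vI.2 fun y hy => by rw [eval_aeval]; exact mem_vI.1 hp _ hy)

/-- Linear subspaces are closed. -/
theorem zclosed_submodule [Fintype κ] (L : Submodule ℂ (κ → ℂ)) :
    ZClosed (L : Set (κ → ℂ)) := by
  classical
  apply zclosed_of_eqs {p | ∃ l : Module.Dual ℂ (κ → ℂ), (∀ x ∈ L, l x = 0) ∧
    p = ∑ i, C (l (Pi.single i 1)) * X i}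
  intro x
  have hl : ∀ (l : Module.Dual ℂ (κ → ℂ)) (y : κ → ℂ),
      eval y (∑ i, C (l (Pi.single i 1)) * X i) = l y := by
    intro l y
    rw [map_sum]
    simp only [map_mul, eval_C, eval_X]
    conv_rhs => rw [← Finset.univ_sum_single y, map_sum]
    refine Finset.sum_congr rfl fun i _ => ?_
    have : (Pi.single i (y i) : κ → ℂ) = y i • Pi.single i 1 := by
      rw [← Pi.single_smul]; simp
    rw [this, map_smul, smul_eq_mul, mul_comm]
  constructor
  · rintro hx p ⟨l, hl0, rfl⟩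
    rw [hl]
    exact hl0 x hx
  · intro hx
    by_contra hn
    obtain ⟨l, h1, h2⟩ := Submodule.exists_dual_map_eq_bot_of_notMem hn inferInstance
    apply h1
    rw [← hl l x]
    refine hx _ ⟨l, fun y hy => ?_, rfl⟩
    have : l y ∈ Submodule.map l L := Submodule.mem_map_of_mem hy
    rw [h2] at this
    simpa using this

end Closed

/-! ### differentials -/

section Diff

variable {κ : Type} [Fintype κ]

theorem dpol_add (p q : MvPolynomial κ ℂ) (x v : κ → ℂ) :
    dpol (p + q) x v = dpol p x v + dpol q x v := by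
  simp only [dpol, map_add, add_mul, Finset.sum_add_distrib]

theorem dpol_sub (p q : MvPolynomial κ ℂ) (x v : κ → ℂ) :
    dpol (p - q) x v = dpol p x v - dpol q x v := by
  simp only [dpol, map_sub, sub_mul, Finset.sum_sub_distrib]

theorem dpol_mul (p q : MvPolynomial κ ℂ) (x v : κ → ℂ) :
    dpol (p * q) x v = eval x p * dpol q x v + eval x q * dpol p x v := by
  simp only [dpol, Derivation.leibniz, smul_eq_mul, map_add, map_mul, Finset.mul_sum,
    ← Finset.sum_add_distrib]
  exact Finset.sum_congr rfl fun i _ => by ring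

@[simp] theorem dpol_zero (x v : κ → ℂ) : dpol (0 : MvPolynomial κ ℂ) x v = 0 := by
  simp [dpol]

@[simp] theorem dpol_C (a : ℂ) (x v : κ → ℂ) : dpol (C a : MvPolynomial κ ℂ) x v = 0 := by
  simp [dpol]

@[simp] theorem dpol_one (x v : κ → ℂ) : dpol (1 : MvPolynomial κ ℂ) x v = 0 := by
  simp [dpol]

@[simp] theorem dpol_X (i : κ) (x v : κ → ℂ) : dpol (X i : MvPolynomial κ ℂ) x v = v i := by
  classical
  simp only [dpol, pderiv_X]
  rw [Finset.sum_eq_single i]
  · simp
  · intro j _ hj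
    simp [Pi.single_apply, hj.symm]
  · simp

theorem dpol_smul (a : ℂ) (p : MvPolynomial κ ℂ) (x v : κ → ℂ) :
    dpol (a • p) x v = a * dpol p x v := by
  rw [smul_eq_C_mul, dpol_mul, dpol_C, eval_C, mul_zero, add_zero]

theorem dpol_sum {J : Type*} (A : Finset J) (p : J → MvPolynomial κ ℂ) (x v : κ → ℂ) :
    dpol (∑ j ∈ A, p j) x v = ∑ j ∈ A, dpol (p j) x v := by
  classical
  induction A using Finset.induction_on with
  | empty => simp
  | insert a A ha ih => rw [Finset.sum_insert ha, Finset.sum_insert ha, dpol_add, ih]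

@[simp] theorem dpol_zero_right (p : MvPolynomial κ ℂ) (x : κ → ℂ) : dpol p x 0 = 0 := by
  simp [dpol]

theorem dpol_add_right (p : MvPolynomial κ ℂ) (x v v' : κ → ℂ) :
    dpol p x (v + v') = dpol p x v + dpol p x v' := by
  simp only [dpol, Pi.add_apply, mul_add, Finset.sum_add_distrib]

theorem dpol_smul_right (p : MvPolynomial κ ℂ) (x v : κ → ℂ) (a : ℂ) :
    dpol p x (a • v) = a * dpol p x v := by
  simp only [dpol, Finset.mul_sum, Pi.smul_apply, smul_eq_mul]
  exact Finset.sum_congr rfl fun i _ => by ring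

theorem dpol_sub_right (p : MvPolynomial κ ℂ) (x v v' : κ → ℂ) :
    dpol p x (v - v') = dpol p x v - dpol p x v' := by
  simp only [dpol, Pi.sub_apply, mul_sub, Finset.sum_sub_distrib]

/-- `dpol p x` as a linear form. -/
noncomputable def dpolL (p : MvPolynomial κ ℂ) (x : κ → ℂ) : (κ → ℂ) →ₗ[ℂ] ℂ where
  toFun v := dpol p x v
  map_add' := dpol_add_right p x
  map_smul' a v := dpol_smul_right p x v a

@[simp] theorem dpolL_apply (p : MvPolynomial κ ℂ) (x v : κ → ℂ) :
    dpolL p x v = dpol p x v := rfl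

theorem dev_apply {μ : Type} (F : μ → MvPolynomial κ ℂ) (x v : κ → ℂ) (i : μ) :
    dev F x v i = dpol (F i) x v := rfl

theorem dev_add {μ : Type} (F : μ → MvPolynomial κ ℂ) (x v v' : κ → ℂ) :
    dev F x (v + v') = dev F x v + dev F x v' := funext fun i => dpol_add_right (F i) x v v'

theorem dev_smul {μ : Type} (F : μ → MvPolynomial κ ℂ) (x v : κ → ℂ) (a : ℂ) :
    dev F x (a • v) = a • dev F x v := funext fun i => dpol_smul_right (F i) x v a

/-- `dev F x` as a linear map. -/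
noncomputable def devL {μ : Type} (F : μ → MvPolynomial κ ℂ) (x : κ → ℂ) :
    (κ → ℂ) →ₗ[ℂ] (μ → ℂ) where
  toFun v := dev F x v
  map_add' := dev_add F x
  map_smul' a v := dev_smul F x v a

@[simp] theorem devL_apply {μ : Type} (F : μ → MvPolynomial κ ℂ) (x v : κ → ℂ) :
    devL F x v = dev F x v := rfl

/-- Derivatives along curves. -/
theorem hasDerivAt_eval (p : MvPolynomial κ ℂ) {γ : ℂ → κ → ℂ} {γ' : κ → ℂ} {τ : ℂ}
    (h : ∀ i, HasDerivAt (fun s => γ s i) (γ' i) τ) :
    HasDerivAt (fun s => eval (γ s) p) (dpol p (γ τ) γ') τ := by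
  induction p using MvPolynomial.induction_on with
  | C a =>
    simp only [eval_C, dpol_C]
    exact hasDerivAt_const τ a
  | add p q hp hq =>
    simp only [map_add, dpol_add]
    exact hp.add hq
  | mul_X p i hp =>
    have h1 := hp.mul (h i)
    have e : dpol (p * X i) (γ τ) γ' = dpol p (γ τ) γ' * γ τ i + eval (γ τ) p * γ' i := by
      rw [dpol_mul, dpol_X, eval_X]; ring
    rw [e]
    refine h1.congr_of_eventuallyEq ?_
    exact Filter.Eventually.of_forall fun s => by simp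

/-- Chain rule. -/
theorem dpol_aeval {κ' : Type} [Fintype κ'] (f : κ' → MvPolynomial κ ℂ)
    (p : MvPolynomial κ' ℂ) (x v : κ → ℂ) :
    dpol (aeval f p) x v = dpol p (ev f x) (dev f x v) := by
  induction p using MvPolynomial.induction_on with
  | C a => simp [MvPolynomial.algebraMap_eq]
  | add p q hp hq => rw [map_add, dpol_add, dpol_add, hp, hq]
  | mul_X p i hp =>
    rw [map_mul, aeval_X, dpol_mul, dpol_mul, hp, dpol_X, eval_X, eval_aeval]
    rfl

/-- Tangent vectors are mapped to tangent vectors. -/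
theorem dev_mem_tsp {μ : Type} [Fintype μ] {S : Set (κ → ℂ)} {S' : Set (μ → ℂ)}
    (f : μ → MvPolynomial κ ℂ) (hf : ∀ x ∈ S, ev f x ∈ S') {x v : κ → ℂ}
    (hv : v ∈ tsp S x) : dev f x v ∈ tsp S' (ev f x) := by
  intro p hp
  rw [← dpol_aeval]
  exact hv _ (mem_vI.2 fun y hy => by rw [eval_aeval]; exact mem_vI.1 hp _ (hf y hy))

/-- Velocity vectors of curves in `S` are tangent vectors. -/
theorem deriv_mem_tsp {S : Set (κ → ℂ)} {γ : ℂ → κ → ℂ} {γ' : κ → ℂ} {τ : ℂ}
    (h : ∀ i, HasDerivAt (fun s => γ s i) (γ' i) τ) (hS : ∀ s, γ s ∈ S) :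
    γ' ∈ tsp S (γ τ) := by
  intro p hp
  have h1 := hasDerivAt_eval p h
  have e : (fun s => eval (γ s) p) = fun _ => (0 : ℂ) := by
    funext s
    exact mem_vI.1 hp (γ s) (hS s)
  rw [e] at h1
  exact h1.unique (hasDerivAt_const τ (0 : ℂ))

theorem tsp_mono {S S' : Set (κ → ℂ)} (h : S ⊆ S') (x : κ → ℂ) : tsp S x ≤ tsp S' x :=
  fun _ hv p hp => hv p (vanishingIdeal_anti_mono h hp)

theorem hasDerivAt_ray (x : κ → ℂ) (τ : ℂ) (i : κ) :
    HasDerivAt (fun s : ℂ => (s • x) i) (x i) τ := by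
  have h1 : HasDerivAt (fun s : ℂ => s * x i) (1 * x i) τ :=
    (hasDerivAt_id' τ).mul_const (x i)
  rw [one_mul] at h1
  exact h1

theorem hasDerivAt_line (x v : κ → ℂ) (τ : ℂ) (i : κ) :
    HasDerivAt (fun s : ℂ => (x + s • v) i) (v i) τ := by
  have h2 : HasDerivAt (fun s : ℂ => x i + (s • v) i) (v i) τ :=
    (hasDerivAt_ray v τ i).const_add (x i)
  exact h2

/-- The tangent space of a cone contains the point. -/
theorem self_mem_tsp {S : Set (κ → ℂ)} (hc : ∀ a : ℂ, ∀ x ∈ S, a • x ∈ S) {x : κ → ℂ}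
    (hx : x ∈ S) : x ∈ tsp S x := by
  have h : x ∈ tsp S ((1 : ℂ) • x) :=
    deriv_mem_tsp (S := S) (γ := fun s : ℂ => s • x) (γ' := x) (τ := 1)
      (fun i => hasDerivAt_ray x 1 i) (fun s => hc s x hx)
  rwa [one_smul] at h

theorem tangentSpace_eq_tsp {m : ℕ} (S : Set (Fin m → ℂ)) (x : Fin m → ℂ) :
    tangentSpace S x = tsp S x := rfl

end Diff

/-! ### linear substitutions -/

section Pull

variable {κ κ' : Type} [Fintype κ]

/-- A linear form as a polynomial. -/
noncomputable def linp (l : (κ → ℂ) →ₗ[ℂ] ℂ) : MvPolynomial κ ℂ := by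
  classical
  exact ∑ i, C (l (Pi.single i 1)) * X i

theorem eval_linp (l : (κ → ℂ) →ₗ[ℂ] ℂ) (x : κ → ℂ) : eval x (linp l) = l x := by
  classical
  rw [linp, map_sum]
  simp only [map_mul, eval_C, eval_X]
  conv_rhs => rw [← Finset.univ_sum_single x, map_sum]
  refine Finset.sum_congr rfl fun i _ => ?_
  have : (Pi.single i (x i) : κ → ℂ) = x i • Pi.single i 1 := by
    rw [← Pi.single_smul]; simp
  rw [this, map_smul, smul_eq_mul, mul_comm]

theorem dpol_linp (l : (κ → ℂ) →ₗ[ℂ] ℂ) (x v : κ → ℂ) : dpol (linp l) x v = l v := by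
  classical
  rw [linp, dpol_sum, ← eval_linp l v, linp, map_sum]
  refine Finset.sum_congr rfl fun i _ => ?_
  simp only [dpol_mul, dpol_C, dpol_X, eval_C, map_mul, eval_X]; ring

/-- The polynomial `q` composed with the linear map `L`. -/
noncomputable def pull (L : (κ → ℂ) →ₗ[ℂ] (κ' → ℂ)) (q : MvPolynomial κ' ℂ) :
    MvPolynomial κ ℂ :=
  aeval (fun j => linp ((LinearMap.proj j : (κ' → ℂ) →ₗ[ℂ] ℂ).comp L)) q

theorem ev_linp (L : (κ → ℂ) →ₗ[ℂ] (κ' → ℂ)) (x : κ → ℂ) :
    ev (fun j => linp ((LinearMap.proj j : (κ' → ℂ) →ₗ[ℂ] ℂ).comp L)) x = L x := by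
  funext j
  rw [ev, eval_linp]; rfl

theorem eval_pull (L : (κ → ℂ) →ₗ[ℂ] (κ' → ℂ)) (q : MvPolynomial κ' ℂ) (x : κ → ℂ) :
    eval x (pull L q) = eval (L x) q := by
  rw [pull, eval_aeval, ev_linp]

theorem dpol_pull [Fintype κ'] (L : (κ → ℂ) →ₗ[ℂ] (κ' → ℂ)) (q : MvPolynomial κ' ℂ)
    (x v : κ → ℂ) : dpol (pull L q) x v = dpol q (L x) (L v) := by
  rw [pull, dpol_aeval, ev_linp]
  congr 1
  funext j
  rw [dev_apply, dpol_linp]; rfl

/-- The vanishing ideal of the image. -/
theorem vI_image {S : Set (κ → ℂ)} (f : κ' → MvPolynomial κ ℂ) :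
    vanishingIdeal ℂ (ev f '' S) =
      Ideal.comap (aeval f : MvPolynomial κ' ℂ →ₐ[ℂ] MvPolynomial κ ℂ) (vanishingIdeal ℂ S) := by
  ext p
  rw [Ideal.mem_comap, mem_vI, mem_vI]
  constructor
  · intro h x hx
    rw [eval_aeval]
    exact h _ ⟨x, hx, rfl⟩
  · rintro h _ ⟨x, hx, rfl⟩
    rw [← eval_aeval]
    exact h x hx

/-- Images of irreducible sets are irreducible. -/
theorem prime_image {S : Set (κ → ℂ)} (f : κ' → MvPolynomial κ ℂ)
    (h : (vanishingIdeal ℂ S).IsPrime) : (vanishingIdeal ℂ (ev f '' S)).IsPrime := by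
  rw [vI_image]
  exact Ideal.IsPrime.comap _

end Pull

/-! ### homogeneous polynomials -/

section Hom

variable {κ : Type}

theorem homE_of_isHomogeneous {p : MvPolynomial κ ℂ} {k : ℕ} (h : p.IsHomogeneous k) :
    HomE k p := by
  intro a x
  rw [eval_eq, eval_eq, Finset.mul_sum]
  refine Finset.sum_congr rfl fun m hm => ?_
  have hd : m.degree = k := by
    rw [Finsupp.degree_eq_weight_one]
    exact h (mem_support_iff.1 hm)
  rw [show ∏ i ∈ m.support, (a • x) i ^ m i = a ^ k * ∏ i ∈ m.support, x i ^ m i from ?_]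
  · ring
  · simp only [Pi.smul_apply, smul_eq_mul, mul_pow, Finset.prod_mul_distrib,
      Finset.prod_pow_eq_pow_sum]
    rw [← hd, Finsupp.degree_apply]

theorem isHomogeneous_of_homE {p : MvPolynomial κ ℂ} {k : ℕ} (h : HomE k p) :
    p.IsHomogeneous k := by
  classical
  -- compare the homogeneous components
  have key : ∀ j, j ≠ k → homogeneousComponent j p = 0 := by
    intro j hj
    apply MvPolynomial.funext
    intro x
    rw [map_zero]
    -- the polynomial `∑ a^j p_j(x) - a^k p(x)` in `a` vanishes identically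
    let Q : Polynomial ℂ := (∑ i ∈ Finset.range (p.totalDegree + 1),
      Polynomial.C (eval x (homogeneousComponent i p)) * Polynomial.X ^ i) -
      Polynomial.C (eval x p) * Polynomial.X ^ k
    have hQ : Q = 0 := by
      apply Polynomial.funext
      intro a
      have h1 : eval (a • x) p = ∑ i ∈ Finset.range (p.totalDegree + 1),
          eval x (homogeneousComponent i p) * a ^ i := by
        conv_lhs => rw [← sum_homogeneousComponent p]
        rw [map_sum]
        refine Finset.sum_congr rfl fun i _ => ?_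
        rw [homE_of_isHomogeneous (homogeneousComponent_isHomogeneous i p) a x, mul_comm]
      simp only [Q, Polynomial.eval_sub, Polynomial.eval_finsetSum, Polynomial.eval_mul,
        Polynomial.eval_C, Polynomial.eval_pow, Polynomial.eval_X, Polynomial.eval_zero]
      rw [← h1, h a x]
      ring
    by_cases hjr : j ∈ Finset.range (p.totalDegree + 1)
    · have := congrArg (fun q : Polynomial ℂ => q.coeff j) hQ
      simp only [Q, Polynomial.coeff_sub, Polynomial.finsetSum_coeff,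
        Polynomial.coeff_C_mul_X_pow, Polynomial.coeff_zero] at this
      rw [Finset.sum_ite_eq] at this
      rw [if_pos hjr, if_neg hj] at this
      simpa using this
    · rw [homogeneousComponent_eq_zero]
      · simp
      · simp at hjr; omega
  have : p = homogeneousComponent k p := by
    conv_lhs => rw [← sum_homogeneousComponent p]
    by_cases hk : k ∈ Finset.range (p.totalDegree + 1)
    · rw [Finset.sum_eq_single_of_mem k hk fun j _ hj => key j hj]
    · rw [homogeneousComponent_eq_zero k p (by simp at hk; omega)]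
      exact Finset.sum_eq_zero fun j hj => key j fun e => hk (e ▸ hj)
  rw [this]
  exact homogeneousComponent_isHomogeneous k p

theorem homE_iff {p : MvPolynomial κ ℂ} {k : ℕ} : HomE k p ↔ p.IsHomogeneous k :=
  ⟨isHomogeneous_of_homE, homE_of_isHomogeneous⟩

theorem HomE.mul {p q : MvPolynomial κ ℂ} {k l : ℕ} (hp : HomE k p) (hq : HomE l q) :
    HomE (k + l) (p * q) := by
  intro a x
  rw [map_mul, map_mul, hp a x, hq a x, pow_add]; ring

theorem HomE.add {p q : MvPolynomial κ ℂ} {k : ℕ} (hp : HomE k p) (hq : HomE k q) :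
    HomE k (p + q) := by
  intro a x
  rw [map_add, map_add, hp a x, hq a x]; ring

theorem HomE.smul {p : MvPolynomial κ ℂ} {k : ℕ} (c : ℂ) (hp : HomE k p) :
    HomE k (c • p) := by
  intro a x
  rw [smul_eval, smul_eval, hp a x]; ring

theorem HomE.sum {J : Type*} {A : Finset J} {p : J → MvPolynomial κ ℂ} {k : ℕ}
    (h : ∀ j ∈ A, HomE k (p j)) : HomE k (∑ j ∈ A, p j) := by
  intro a x
  rw [map_sum, map_sum, Finset.mul_sum]
  exact Finset.sum_congr rfl fun j hj => h j hj a x

theorem homE_zero (k : ℕ) : HomE k (0 : MvPolynomial κ ℂ) := by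
  intro a x; simp

theorem homE_one : HomE 0 (1 : MvPolynomial κ ℂ) := by
  intro a x; simp

theorem homE_X (i : κ) : HomE 1 (X i : MvPolynomial κ ℂ) := by
  intro a x; simp

theorem HomE.pow {p : MvPolynomial κ ℂ} {k : ℕ} (hp : HomE k p) (m : ℕ) :
    HomE (k * m) (p ^ m) := by
  intro a x
  rw [map_pow, map_pow, hp a x, mul_pow, pow_mul]

theorem HomE.prod {J : Type*} {A : Finset J} {p : J → MvPolynomial κ ℂ} {k : ℕ}
    (h : ∀ j ∈ A, HomE k (p j)) : HomE (k * A.card) (∏ j ∈ A, p j) := by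
  classical
  intro a x
  rw [map_prod, map_prod, Finset.prod_congr rfl fun j hj => h j hj a x,
    Finset.prod_mul_distrib, Finset.prod_const, pow_mul]

/-- Euler's relation. -/
theorem euler [Fintype κ] {p : MvPolynomial κ ℂ} {k : ℕ} (h : HomE k p) (x : κ → ℂ) :
    dpol p x x = k * eval x p := by
  have h1 := congrArg (eval x) (isHomogeneous_of_homE h).sum_X_mul_pderiv
  rw [map_sum, map_nsmul, nsmul_eq_mul] at h1
  rw [← h1]
  refine Finset.sum_congr rfl fun i _ => ?_
  rw [map_mul, eval_X, mul_comm]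

/-- The homogeneous components of a polynomial vanishing on a cone vanish on the cone. -/
theorem homogeneousComponent_mem_vI {S : Set (κ → ℂ)} (hc : ∀ a : ℂ, ∀ x ∈ S, a • x ∈ S)
    {p : MvPolynomial κ ℂ} (hp : p ∈ vanishingIdeal ℂ S) (j : ℕ) :
    homogeneousComponent j p ∈ vanishingIdeal ℂ S := by
  classical
  rw [mem_vI]
  intro x hx
  let Q : Polynomial ℂ := ∑ i ∈ Finset.range (p.totalDegree + 1),
      Polynomial.C (eval x (homogeneousComponent i p)) * Polynomial.X ^ i
  have hQ : Q = 0 := by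
    apply Polynomial.funext
    intro a
    have h1 : eval (a • x) p = ∑ i ∈ Finset.range (p.totalDegree + 1),
        eval x (homogeneousComponent i p) * a ^ i := by
      conv_lhs => rw [← sum_homogeneousComponent p]
      rw [map_sum]
      refine Finset.sum_congr rfl fun i _ => ?_
      rw [homE_of_isHomogeneous (homogeneousComponent_isHomogeneous i p) a x, mul_comm]
    simp only [Q, Polynomial.eval_finsetSum, Polynomial.eval_mul,
      Polynomial.eval_C, Polynomial.eval_pow, Polynomial.eval_X, Polynomial.eval_zero]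
    rw [← h1]
    exact mem_vI.1 hp _ (hc a x hx)
  by_cases hjr : j ∈ Finset.range (p.totalDegree + 1)
  · have := congrArg (fun q : Polynomial ℂ => q.coeff j) hQ
    simp only [Q, Polynomial.finsetSum_coeff,
      Polynomial.coeff_C_mul_X_pow, Polynomial.coeff_zero] at this
    rw [Finset.sum_ite_eq] at this
    rwa [if_pos hjr] at this
  · rw [homogeneousComponent_eq_zero]
    · simp
    · simp at hjr; omega

/-- To be in a closed cone it suffices to satisfy the homogeneous equations. -/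
theorem mem_of_homE {S : Set (κ → ℂ)} (hS : ZClosed S) (hc : ∀ a : ℂ, ∀ x ∈ S, a • x ∈ S)
    {x : κ → ℂ} (h : ∀ (k : ℕ) (p : MvPolynomial κ ℂ), HomE k p → p ∈ vanishingIdeal ℂ S →
      eval x p = 0) : x ∈ S := by
  refine zclosed_iff.1 hS x fun p hp => ?_
  rw [← sum_homogeneousComponent p, map_sum]
  exact Finset.sum_eq_zero fun j _ => h j _
    (homE_of_isHomogeneous (homogeneousComponent_isHomogeneous j p))
    (homogeneousComponent_mem_vI hc hp j)

/-- To be a tangent vector of a cone it suffices to be killed by the differentials of the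
homogeneous equations. -/
theorem mem_tsp_of_homE [Fintype κ] {S : Set (κ → ℂ)} (hc : ∀ a : ℂ, ∀ x ∈ S, a • x ∈ S)
    {x v : κ → ℂ} (h : ∀ (k : ℕ) (p : MvPolynomial κ ℂ), HomE k p → p ∈ vanishingIdeal ℂ S →
      dpol p x v = 0) : v ∈ tsp S x := by
  intro p hp
  rw [← sum_homogeneousComponent p, dpol_sum]
  exact Finset.sum_eq_zero fun j _ => h j _
    (homE_of_isHomogeneous (homogeneousComponent_isHomogeneous j p))
    (homogeneousComponent_mem_vI hc hp j)

/-- Scaling of differentials. -/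
theorem dpol_smul_point [Fintype κ] {p : MvPolynomial κ ℂ} {k : ℕ} (h : HomE (k + 1) p) (a : ℂ)
    (x v : κ → ℂ) : dpol p (a • x) v = a ^ k * dpol p x v := by
  simp only [dpol, Finset.mul_sum]
  refine Finset.sum_congr rfl fun i _ => ?_
  have h1 : (pderiv i p).IsHomogeneous k := (isHomogeneous_of_homE h).pderiv
  rw [homE_of_isHomogeneous h1 a x, mul_assoc]

theorem homE_pderiv {p : MvPolynomial κ ℂ} {k : ℕ} (h : HomE (k + 1) p) (i : κ) :
    HomE k (pderiv i p) := homE_of_isHomogeneous (isHomogeneous_of_homE h).pderiv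

theorem homE_linp [Fintype κ] (l : (κ → ℂ) →ₗ[ℂ] ℂ) : HomE 1 (linp l) := by
  intro a x
  rw [eval_linp, eval_linp, map_smul, smul_eq_mul, pow_one]

theorem homE_pull [Fintype κ] {κ' : Type} (L : (κ → ℂ) →ₗ[ℂ] (κ' → ℂ)) {q : MvPolynomial κ' ℂ}
    {k : ℕ} (h : HomE k q) : HomE k (pull L q) := by
  intro a x
  rw [eval_pull, eval_pull, map_smul, h a]

/-- The tangent spaces of a cone are constant along the rulings. -/
theorem tsp_smul [Fintype κ] {S : Set (κ → ℂ)} (hc : ∀ a : ℂ, ∀ x ∈ S, a • x ∈ S) {a : ℂ}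
    (ha : a ≠ 0) (x : κ → ℂ) : tsp S (a • x) = tsp S x := by
  have key : ∀ (b : ℂ) (y : κ → ℂ), b ≠ 0 → tsp S y ≤ tsp S (b • y) := by
    intro b y hb v hv
    refine mem_tsp_of_homE hc fun k p hp hpS => ?_
    cases k with
    | zero =>
      have h0 := isHomogeneous_of_homE hp
      have hC := (totalDegree_eq_zero_iff_eq_C (p := p)).1
        (Nat.le_zero.1 h0.totalDegree_le)
      rw [hC, dpol_C]
    | succ k => rw [dpol_smul_point hp, hv p hpS, mul_zero]
  refine le_antisymm ?_ (key a x ha)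
  have := key a⁻¹ (a • x) (inv_ne_zero ha)
  rwa [smul_smul, inv_mul_cancel₀ ha, one_smul] at this

/-- Lifting of tangent vectors along a linear substitution preserving the sets. -/
theorem map_mem_tsp [Fintype κ] {κ' : Type} [Fintype κ'] {S : Set (κ → ℂ)} {S' : Set (κ' → ℂ)}
    (L : (κ → ℂ) →ₗ[ℂ] (κ' → ℂ)) (hL : ∀ x ∈ S, L x ∈ S') {x v : κ → ℂ} (hv : v ∈ tsp S x) :
    L v ∈ tsp S' (L x) := by
  intro p hp
  rw [← dpol_pull]
  exact hv _ (mem_vI.2 fun y hy => by rw [eval_pull]; exact mem_vI.1 hp _ (hL y hy))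

end Hom

/-! ### decomposable tensors, representations -/

section Seg

variable {κ₁ κ₂ : Type}

theorem seg_apply (x : κ₁ → ℂ) (y : κ₂ → ℂ) (i : κ₁) (j : κ₂) : seg x y (i, j) = x i * y j := rfl

theorem seg_smul_smul (a c : ℂ) (x : κ₁ → ℂ) (y : κ₂ → ℂ) :
    seg (a • x) (c • y) = (a * c) • seg x y := by
  funext p
  simp only [seg, Pi.smul_apply, smul_eq_mul]; ring

theorem seg_smul_left (a : ℂ) (x : κ₁ → ℂ) (y : κ₂ → ℂ) : seg (a • x) y = a • seg x y := by
  funext p
  simp only [seg, Pi.smul_apply, smul_eq_mul]; ring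

theorem seg_smul_right (a : ℂ) (x : κ₁ → ℂ) (y : κ₂ → ℂ) : seg x (a • y) = a • seg x y := by
  funext p
  simp only [seg, Pi.smul_apply, smul_eq_mul]; ring

theorem seg_add_left (x x' : κ₁ → ℂ) (y : κ₂ → ℂ) : seg (x + x') y = seg x y + seg x' y := by
  funext p
  simp only [seg, Pi.add_apply]; ring

theorem seg_add_right (x : κ₁ → ℂ) (y y' : κ₂ → ℂ) : seg x (y + y') = seg x y + seg x y' := by
  funext p
  simp only [seg, Pi.add_apply]; ring

@[simp] theorem seg_zero_left (y : κ₂ → ℂ) : seg (0 : κ₁ → ℂ) y = 0 := by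
  funext p; simp [seg]

@[simp] theorem seg_zero_right (x : κ₁ → ℂ) : seg x (0 : κ₂ → ℂ) = 0 := by
  funext p; simp [seg]

theorem seg_eq_zero_iff {x : κ₁ → ℂ} {y : κ₂ → ℂ} : seg x y = 0 ↔ x = 0 ∨ y = 0 := by
  constructor
  · intro h
    by_contra hn
    rw [not_or] at hn
    obtain ⟨i, hi⟩ := Function.ne_iff.1 hn.1
    obtain ⟨j, hj⟩ := Function.ne_iff.1 hn.2
    have := congrFun h (i, j)
    exact mul_ne_zero hi hj this
  · rintro (rfl | rfl) <;> simp

theorem seg_ne_zero {x : κ₁ → ℂ} {y : κ₂ → ℂ} (hx : x ≠ 0) (hy : y ≠ 0) : seg x y ≠ 0 := by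
  rw [Ne, seg_eq_zero_iff, not_or]
  exact ⟨hx, hy⟩

/-- Uniqueness of the factors of a nonzero decomposable tensor. -/
theorem seg_eq_seg {x x' : κ₁ → ℂ} {y y' : κ₂ → ℂ} (h : seg x y = seg x' y')
    (h0 : seg x y ≠ 0) : ∃ c : ℂ, c ≠ 0 ∧ x' = c • x ∧ y' = c⁻¹ • y := by
  obtain ⟨⟨i, j⟩, hij⟩ := Function.ne_iff.1 h0
  have hxi : x i ≠ 0 := fun e => hij (by simp [seg, e])
  have hyj : y j ≠ 0 := fun e => hij (by simp [seg, e])
  have e1 : ∀ k l, x k * y l = x' k * y' l := fun k l => congrFun h (k, l)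
  have hxi' : x' i ≠ 0 := fun e => by
    have := e1 i j
    rw [e, zero_mul] at this
    exact mul_ne_zero hxi hyj this
  have hyj' : y' j ≠ 0 := fun e => by
    have := e1 i j
    rw [e, mul_zero] at this
    exact mul_ne_zero hxi hyj this
  refine ⟨y j / y' j, div_ne_zero hyj hyj', ?_, ?_⟩
  · funext k
    have := e1 k j
    simp only [Pi.smul_apply, smul_eq_mul]
    field_simp
    linear_combination -this
  · funext l
    have h1 := e1 i l
    have h2 := e1 i j
    simp only [Pi.smul_apply, smul_eq_mul, inv_div]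
    have : x' i * (y' l * y j) = x' i * (y' j * y l) := by
      linear_combination -y j * h1 + y l * h2
    have h3 := mul_left_cancel₀ hxi' this
    field_simp
    linear_combination h3

variable {G : Type} [Group G]

theorem prep_apply {κ : Type} (π : G →* Equiv.Perm κ) (g : G) (x : κ → ℂ) (i : κ) :
    prep π g x i = x ((π g)⁻¹ i) := rfl

theorem tens_seg [Fintype κ₁] [DecidableEq κ₁] [Fintype κ₂] [DecidableEq κ₂]
    (ρ₁ : G →* ((κ₁ → ℂ) →ₗ[ℂ] (κ₁ → ℂ))) (ρ₂ : G →* ((κ₂ → ℂ) →ₗ[ℂ] (κ₂ → ℂ))) (g : G)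
    (x : κ₁ → ℂ) (y : κ₂ → ℂ) : tens ρ₁ ρ₂ g (seg x y) = seg (ρ₁ g x) (ρ₂ g y) := by
  funext p
  have h1 : ρ₁ g x = Matrix.mulVec (LinearMap.toMatrix' (ρ₁ g)) x := by
    conv_lhs => rw [← Matrix.toLin'_toMatrix' (ρ₁ g)]
    rw [Matrix.toLin'_apply]
  have h2 : ρ₂ g y = Matrix.mulVec (LinearMap.toMatrix' (ρ₂ g)) y := by
    conv_lhs => rw [← Matrix.toLin'_toMatrix' (ρ₂ g)]
    rw [Matrix.toLin'_apply]
  have h3 : tens ρ₁ ρ₂ g (seg x y) = Matrix.mulVec (Matrix.kroneckerMap (fun a b => a * b)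
      (LinearMap.toMatrix' (ρ₁ g)) (LinearMap.toMatrix' (ρ₂ g))) (seg x y) := by
    rw [← Matrix.toLin'_apply]; rfl
  rw [h3, h1, h2]
  simp only [Matrix.mulVec, dotProduct, seg, Matrix.kroneckerMap_apply]
  rw [Fintype.sum_prod_type, Finset.sum_mul_sum]
  refine Finset.sum_congr rfl fun i _ => Finset.sum_congr rfl fun j _ => ?_
  ring

theorem oext_none {κ : Type} (ρ : G →* ((κ → ℂ) →ₗ[ℂ] (κ → ℂ))) (g : G) (x : Option κ → ℂ) :
    oext ρ g x none = x none := rfl

theorem oext_some {κ : Type} (ρ : G →* ((κ → ℂ) →ₗ[ℂ] (κ → ℂ))) (g : G) (x : Option κ → ℂ)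
    (i : κ) : oext ρ g x (some i) = ρ g (fun j => x (some j)) i := rfl

@[simp] theorem ov_none {w : ℕ} (c : ℂ) (z : Fin w → ℂ) : ov c z none = c := rfl

@[simp] theorem ov_some {w : ℕ} (c : ℂ) (z : Fin w → ℂ) (i : Fin w) : ov c z (some i) = z i :=
  rfl

theorem ov_eta {w : ℕ} (x : Option (Fin w) → ℂ) : ov (x none) (fun i => x (some i)) = x := by
  funext o; cases o <;> rfl

theorem ov_add {w : ℕ} (c c' : ℂ) (z z' : Fin w → ℂ) :
    ov (c + c') (z + z') = ov c z + ov c' z' := by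
  funext o; cases o <;> rfl

theorem ov_smul {w : ℕ} (a c : ℂ) (z : Fin w → ℂ) : ov (a * c) (a • z) = a • ov c z := by
  funext o; cases o <;> rfl

theorem ov_zero_zero {w : ℕ} : ov (0 : ℂ) (0 : Fin w → ℂ) = 0 := by
  funext o; cases o <;> rfl

theorem oext_ov {w : ℕ} (ρ : G →* ((Fin w → ℂ) →ₗ[ℂ] (Fin w → ℂ))) (g : G) (c : ℂ)
    (z : Fin w → ℂ) : oext ρ g (ov c z) = ov c (ρ g z) := by
  funext o; cases o <;> rfl

end Seg

/-! ### bihomogeneous maps -/

section Bi

variable {κB κY μ : Type}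

theorem ev2_smul_smul {T k : ℕ} {E : μ → MvPolynomial (κB ⊕ κY) ℂ} (h : ∀ i, BiHom T k (E i))
    (a c : ℂ) (b : κB → ℂ) (y : κY → ℂ) :
    ev2 E (a • b) (c • y) = (a ^ T * c ^ k) • ev2 E b y :=
  funext fun i => h i a c b y

theorem ev2_smul_left {T k : ℕ} {E : μ → MvPolynomial (κB ⊕ κY) ℂ} (h : ∀ i, BiHom T k (E i))
    (a : ℂ) (b : κB → ℂ) (y : κY → ℂ) : ev2 E (a • b) y = (a ^ T) • ev2 E b y := by
  have := ev2_smul_smul h a 1 b y
  rwa [one_smul, one_pow, mul_one] at this

theorem ev2_smul_right {T k : ℕ} {E : μ → MvPolynomial (κB ⊕ κY) ℂ} (h : ∀ i, BiHom T k (E i))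
    (c : ℂ) (b : κB → ℂ) (y : κY → ℂ) : ev2 E b (c • y) = (c ^ k) • ev2 E b y := by
  have := ev2_smul_smul h 1 c b y
  rwa [one_smul, one_pow, one_mul] at this

variable [Fintype κB] [Fintype κY]

theorem d2_add (E : μ → MvPolynomial (κB ⊕ κY) ℂ) (b : κB → ℂ) (y : κY → ℂ)
    (b₁ b₂ : κB → ℂ) (y₁ y₂ : κY → ℂ) :
    d2 E b y (b₁ + b₂) (y₁ + y₂) = d2 E b y b₁ y₁ + d2 E b y b₂ y₂ := by
  funext i
  have : (Sum.elim (b₁ + b₂) (y₁ + y₂) : κB ⊕ κY → ℂ) = Sum.elim b₁ y₁ + Sum.elim b₂ y₂ := by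
    funext j; cases j <;> rfl
  simp only [d2, this, dpol_add_right, Pi.add_apply]

theorem d2_smul (E : μ → MvPolynomial (κB ⊕ κY) ℂ) (b : κB → ℂ) (y : κY → ℂ)
    (a : ℂ) (b₁ : κB → ℂ) (y₁ : κY → ℂ) : d2 E b y (a • b₁) (a • y₁) = a • d2 E b y b₁ y₁ := by
  funext i
  have : (Sum.elim (a • b₁) (a • y₁) : κB ⊕ κY → ℂ) = a • Sum.elim b₁ y₁ := by
    funext j; cases j <;> rfl
  simp only [d2, this, dpol_smul_right, Pi.smul_apply, smul_eq_mul]

/-- The derivative of `ev2 E` along a curve. -/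
theorem hasDerivAt_ev2 (E : μ → MvPolynomial (κB ⊕ κY) ℂ) {β : ℂ → κB → ℂ} {η : ℂ → κY → ℂ}
    {β' : κB → ℂ} {η' : κY → ℂ} {τ : ℂ} (hβ : ∀ i, HasDerivAt (fun s => β s i) (β' i) τ)
    (hη : ∀ i, HasDerivAt (fun s => η s i) (η' i) τ) (i : μ) :
    HasDerivAt (fun s => ev2 E (β s) (η s) i) (d2 E (β τ) (η τ) β' η' i) τ := by
  refine hasDerivAt_eval (E i) (γ := fun s => Sum.elim (β s) (η s)) (γ' := Sum.elim β' η') ?_
  rintro (j | j)
  · exact hβ j
  · exact hη j

theorem d2_euler_left {T k : ℕ} {E : μ → MvPolynomial (κB ⊕ κY) ℂ}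
    (h : ∀ i, BiHom T k (E i)) (b : κB → ℂ) (y : κY → ℂ) :
    d2 E b y b 0 = (T : ℂ) • ev2 E b y := by
  funext i
  have h1 : HasDerivAt (fun s : ℂ => ev2 E (s • b) y i) (d2 E ((1 : ℂ) • b) y b 0 i) 1 :=
    hasDerivAt_ev2 E (β := fun s : ℂ => s • b) (η := fun _ => y) (β' := b) (η' := 0)
      (τ := (1 : ℂ)) (fun j => hasDerivAt_ray b 1 j) (fun j => hasDerivAt_const _ _) i
  have h2 : HasDerivAt (fun s : ℂ => ev2 E (s • b) y i) (T * ev2 E b y i) 1 := by
    have e : (fun s : ℂ => ev2 E (s • b) y i) = fun s => s ^ T * ev2 E b y i := by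
      funext s
      rw [ev2_smul_left h s b y, Pi.smul_apply, smul_eq_mul]
    rw [e]
    have h3 := (hasDerivAt_pow T (1 : ℂ)).mul_const (ev2 E b y i)
    rwa [one_pow, mul_one] at h3
  have h3 := h1.unique h2
  rw [one_smul] at h3
  exact h3

theorem d2_euler_right {T k : ℕ} {E : μ → MvPolynomial (κB ⊕ κY) ℂ}
    (h : ∀ i, BiHom T k (E i)) (b : κB → ℂ) (y : κY → ℂ) :
    d2 E b y 0 y = (k : ℂ) • ev2 E b y := by
  funext i
  have h1 : HasDerivAt (fun s : ℂ => ev2 E b (s • y) i) (d2 E b ((1 : ℂ) • y) 0 y i) 1 :=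
    hasDerivAt_ev2 E (β := fun _ => b) (η := fun s : ℂ => s • y) (β' := 0) (η' := y)
      (τ := (1 : ℂ)) (fun j => hasDerivAt_const _ _) (fun j => hasDerivAt_ray y 1 j) i
  have h2 : HasDerivAt (fun s : ℂ => ev2 E b (s • y) i) (k * ev2 E b y i) 1 := by
    have e : (fun s : ℂ => ev2 E b (s • y) i) = fun s => s ^ k * ev2 E b y i := by
      funext s
      rw [ev2_smul_right h s b y, Pi.smul_apply, smul_eq_mul]
    rw [e]
    have h3 := (hasDerivAt_pow k (1 : ℂ)).mul_const (ev2 E b y i)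
    rwa [one_pow, mul_one] at h3
  have h3 := h1.unique h2
  rw [one_smul] at h3
  exact h3

end Bi

/-! ### binary forms -/

section Bin

theorem hev_add (d : ℕ) (p q : Polynomial ℂ) (s t : ℂ) :
    hev d (p + q) s t = hev d p s t + hev d q s t := by
  simp only [hev, Polynomial.coeff_add, add_mul, Finset.sum_add_distrib]

theorem hev_smul (d : ℕ) (a : ℂ) (p : Polynomial ℂ) (s t : ℂ) :
    hev d (a • p) s t = a * hev d p s t := by
  simp only [hev, Polynomial.coeff_smul, smul_eq_mul, Finset.mul_sum]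
  exact Finset.sum_congr rfl fun i _ => by ring

theorem hev_C_mul (d : ℕ) (a : ℂ) (p : Polynomial ℂ) (s t : ℂ) :
    hev d (Polynomial.C a * p) s t = a * hev d p s t := by
  rw [← Polynomial.smul_eq_C_mul, hev_smul]

@[simp] theorem hev_zero (d : ℕ) (s t : ℂ) : hev d 0 s t = 0 := by
  simp [hev]

theorem hev_sum {J : Type*} (A : Finset J) (d : ℕ) (p : J → Polynomial ℂ) (s t : ℂ) :
    hev d (∑ j ∈ A, p j) s t = ∑ j ∈ A, hev d (p j) s t := by
  classical
  induction A using Finset.induction_on with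
  | empty => simp
  | insert a A ha ih => rw [Finset.sum_insert ha, Finset.sum_insert ha, hev_add, ih]

/-- The value at `(1, t)`. -/
theorem hev_one {d : ℕ} {p : Polynomial ℂ} (h : p.natDegree ≤ d) (t : ℂ) :
    hev d p 1 t = p.eval t := by
  rw [Polynomial.eval_eq_sum_range' (Nat.lt_succ_of_le h)]
  simp [hev]

/-- The value at `(s, t)` for `s ≠ 0`. -/
theorem hev_of_ne {d : ℕ} {p : Polynomial ℂ} (h : p.natDegree ≤ d) {s : ℂ} (hs : s ≠ 0)
    (t : ℂ) : hev d p s t = s ^ d * p.eval (t / s) := by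
  rw [Polynomial.eval_eq_sum_range' (Nat.lt_succ_of_le h), hev, Finset.mul_sum]
  refine Finset.sum_congr rfl fun j hj => ?_
  have hj' : j ≤ d := Nat.lt_succ_iff.1 (Finset.mem_range.1 hj)
  have : s ^ d = s ^ (d - j) * s ^ j := by rw [← pow_add, Nat.sub_add_cancel hj']
  rw [this, div_pow]
  field_simp

/-- The value at `(0, t)`. -/
theorem hev_zero_left (d : ℕ) (p : Polynomial ℂ) (t : ℂ) :
    hev d p 0 t = p.coeff d * t ^ d := by
  rw [hev, Finset.sum_eq_single d]
  · simp
  · intro j hj hjd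
    have : d - j ≠ 0 := by
      have := Finset.mem_range.1 hj
      omega
    rw [zero_pow this]; ring
  · simp

/-- Homogeneity. -/
theorem hev_smul_smul (d : ℕ) (p : Polynomial ℂ) (a s t : ℂ) :
    hev d p (a * s) (a * t) = a ^ d * hev d p s t := by
  rw [hev, hev, Finset.mul_sum]
  refine Finset.sum_congr rfl fun j hj => ?_
  have hj' : j ≤ d := Nat.lt_succ_iff.1 (Finset.mem_range.1 hj)
  have : a ^ d = a ^ (d - j) * a ^ j := by rw [← pow_add, Nat.sub_add_cancel hj']
  rw [this, mul_pow, mul_pow]; ring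

/-- Homogeneous evaluation is multiplicative. -/
theorem hev_mul {d e : ℕ} {p q : Polynomial ℂ} (hp : p.natDegree ≤ d) (hq : q.natDegree ≤ e)
    (s t : ℂ) : hev (d + e) (p * q) s t = hev d p s t * hev e q s t := by
  have hpq : (p * q).natDegree ≤ d + e :=
    (Polynomial.natDegree_mul_le).trans (Nat.add_le_add hp hq)
  by_cases hs : s = 0
  · subst hs
    rw [hev_zero_left, hev_zero_left, hev_zero_left, pow_add]
    have : (p * q).coeff (d + e) = p.coeff d * q.coeff e :=
      Polynomial.coeff_mul_add_eq_of_natDegree_le hp hq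
    rw [this]; ring
  · rw [hev_of_ne hpq hs, hev_of_ne hp hs, hev_of_ne hq hs, Polynomial.eval_mul, pow_add]
    ring

theorem natDegree_prod_le' {J : Type*} (A : Finset J) {e : ℕ} {p : J → Polynomial ℂ}
    (h : ∀ j ∈ A, (p j).natDegree ≤ e) : (∏ j ∈ A, p j).natDegree ≤ e * A.card := by
  refine (Polynomial.natDegree_prod_le A p).trans ?_
  calc ∑ j ∈ A, (p j).natDegree ≤ ∑ _j ∈ A, e := Finset.sum_le_sum h
    _ = e * A.card := by rw [Finset.sum_const, smul_eq_mul, mul_comm]

theorem hev_prod {J : Type*} (A : Finset J) {e : ℕ} {p : J → Polynomial ℂ}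
    (h : ∀ j ∈ A, (p j).natDegree ≤ e) (s t : ℂ) :
    hev (e * A.card) (∏ j ∈ A, p j) s t = ∏ j ∈ A, hev e (p j) s t := by
  classical
  induction A using Finset.induction_on with
  | empty => simp [hev]
  | insert a A ha ih =>
    have h1 : (p a).natDegree ≤ e := h a (Finset.mem_insert_self a A)
    have h2 : ∀ j ∈ A, (p j).natDegree ≤ e := fun j hj => h j (Finset.mem_insert_of_mem hj)
    rw [Finset.prod_insert ha, Finset.prod_insert ha, Finset.card_insert_of_notMem ha,
      Nat.mul_add, mul_one, add_comm (e * A.card) e,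
      hev_mul h1 (natDegree_prod_le' A h2), ih h2]

theorem hev_one_poly (s t : ℂ) : hev 0 (1 : Polynomial ℂ) s t = 1 := by
  simp [hev]

/-- A polynomial of degree at most `d` is determined by its homogeneous values. -/
theorem eq_of_hev {d : ℕ} {p q : Polynomial ℂ} (hp : p.natDegree ≤ d) (hq : q.natDegree ≤ d)
    (h : ∀ t, hev d p 1 t = hev d q 1 t) : p = q := by
  apply Polynomial.funext
  intro t
  rw [← hev_one hp, ← hev_one hq, h t]

/-- The polynomials attached to a coefficient array. -/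
noncomputable def cpol {N d : ℕ} (c : Coef N d) : Fin (N + 1) → Polynomial ℂ :=
  fun i => ∑ j : Fin (d + 1), Polynomial.C (c (i, j)) * Polynomial.X ^ (j : ℕ)

theorem cpol_coeff {N d : ℕ} (c : Coef N d) (i : Fin (N + 1)) (j : ℕ) :
    (cpol c i).coeff j = if h : j < d + 1 then c (i, ⟨j, h⟩) else 0 := by
  classical
  simp only [cpol, Polynomial.finsetSum_coeff, Polynomial.coeff_C_mul_X_pow]
  by_cases h : j < d + 1
  · rw [dif_pos h, Finset.sum_eq_single (⟨j, h⟩ : Fin (d + 1))]
    · simp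
    · intro k _ hk
      rw [if_neg]
      intro e
      exact hk (Fin.ext e.symm)
    · simp
  · rw [dif_neg h]
    refine Finset.sum_eq_zero fun k _ => ?_
    rw [if_neg]
    intro e
    exact h (e ▸ k.2)

theorem cpol_natDegree {N d : ℕ} (c : Coef N d) (i : Fin (N + 1)) :
    (cpol c i).natDegree ≤ d := by
  rw [Polynomial.natDegree_le_iff_coeff_eq_zero]
  intro j hj
  rw [cpol_coeff, dif_neg (by omega)]

theorem hevv_cpol {N d : ℕ} (c : Coef N d) (s t : ℂ) : hevv d (cpol c) s t = pt c s t := by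
  funext i
  simp only [hevv, hev, pt]
  rw [Finset.sum_range fun j => (cpol c i).coeff j * s ^ (d - j) * t ^ j]
  refine Finset.sum_congr rfl fun j _ => ?_
  rw [cpol_coeff, dif_pos j.2]

/-- The coefficient array attached to a vector of polynomials. -/
def carr {N : ℕ} (d : ℕ) (c : Fin (N + 1) → Polynomial ℂ) : Coef N d :=
  fun p => (c p.1).coeff p.2

theorem pt_carr {N d : ℕ} (c : Fin (N + 1) → Polynomial ℂ) (s t : ℂ) :
    pt (carr d c) s t = hevv d c s t := by
  funext i
  simp only [hevv, hev, pt, carr]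
  rw [Finset.sum_range fun j => (c i).coeff j * s ^ (d - j) * t ^ j]

theorem mor_of_isCurve {N d : ℕ} {X : Set (Fin (N + 1) → ℂ)} {c : Coef N d}
    (h : IsCurve X c) : Mor d (cpol c) where
  deg := cpol_natDegree c
  ne s t hst := by rw [hevv_cpol]; exact h.ne_zero s t hst

theorem hevv_mem_of_isCurve {N d : ℕ} {X : Set (Fin (N + 1) → ℂ)} {c : Coef N d}
    (h : IsCurve X c) (s t : ℂ) : hevv d (cpol c) s t ∈ X := by
  rw [hevv_cpol]; exact h.mem s t

end Bin

/-! ### the data -/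

namespace VD

variable (D : VD)

theorem gr_smul (hF : ∀ j, HomE D.a (D.F j)) (c : ℂ) (x : Option (Fin D.w) → ℂ) :
    D.gr (c • x) = c ^ (D.a + 1) • D.gr x := by
  have : ev D.F (c • x) = c ^ D.a • ev D.F x := funext fun j => hF j c x
  rw [gr, gr, this, seg_smul_smul, pow_succ']

theorem gr_mem (x : Option (Fin D.w) → ℂ) : D.gr x ∈ D.Y := by
  refine ⟨x, ev D.F x, rfl, fun h hh => ?_⟩
  have := congrArg (eval x) hh
  simpa [map_sum, ev] using this

end VD

end Pool.Agent.Helper87.VM
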