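import Pool.Agent.Helper87.VM.Lib

/-!
Library for the existence theorem on isotrivial VMRT (`MP_39dd1a_ag`), second part: syzygies,
the action of the group on the data.
-/

set_option autoImplicit false

namespace Pool.Agent.Helper87.VM

open MvPolynomial Pool.Agent.Helper48.VMRT

section Syzygies

variable {κ ν : Type} [Fintype ν] {F : ν → MvPolynomial κ ℂ} {x : κ → ℂ} {η : ν → ℂ}

theorem syz_ev (F : ν → MvPolynomial κ ℂ) (x : κ → ℂ) : Syz F x (ev F x) := by
  intro h hh
  have := congrArg (eval x) hh
  simpa [map_sum, ev] using this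

theorem syz_zero (F : ν → MvPolynomial κ ℂ) (x : κ → ℂ) : Syz F x 0 := by
  intro h _
  simp

theorem Syz.smul_right (h : Syz F x η) (c : ℂ) : Syz F x (c • η) := by
  intro p hp
  have := h p hp
  simp only [Pi.smul_apply, smul_eq_mul]
  calc ∑ j, eval x (p j) * (c * η j) = c * ∑ j, eval x (p j) * η j := by
        rw [Finset.mul_sum]
        exact Finset.sum_congr rfl fun j _ => by ring
    _ = 0 := by rw [this, mul_zero]

theorem Syz.add_right {η' : ν → ℂ} (h : Syz F x η) (h' : Syz F x η') : Syz F x (η + η') := by
  intro p hp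
  simp only [Pi.add_apply, mul_add, Finset.sum_add_distrib, h p hp, h' p hp, add_zero]

/-- Koszul relations. -/
theorem Syz.koszul (h : Syz F x η) (i j : ν) :
    eval x (F i) * η j = eval x (F j) * η i := by
  classical
  have h1 := h (fun k => (if k = j then F i else 0) - (if k = i then F j else 0)) (by
    simp only [sub_mul, ite_mul, zero_mul, Finset.sum_sub_distrib]
    rw [Finset.sum_ite_eq' Finset.univ j, Finset.sum_ite_eq' Finset.univ i,
      if_pos (Finset.mem_univ _), if_pos (Finset.mem_univ _)]
    ring)
  simp only [map_sub, sub_mul, Finset.sum_sub_distrib] at h1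
  rw [Finset.sum_eq_single j, Finset.sum_eq_single i] at h1
  · simp only [if_true] at h1
    exact sub_eq_zero.1 h1
  · intro k _ hk; simp [hk]
  · simp
  · intro k _ hk; simp [hk]
  · simp

/-- Where the forms do not vanish, the solutions of the syzygy equations are the multiples of the
vector of values. -/
theorem Syz.eq_smul (h : Syz F x η) (h0 : ev F x ≠ 0) : ∃ c : ℂ, η = c • ev F x := by
  obtain ⟨i, hi⟩ := Function.ne_iff.1 h0
  have hi' : eval x (F i) ≠ 0 := hi
  refine ⟨η i / eval x (F i), funext fun j => ?_⟩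
  have := h.koszul i j
  simp only [Pi.smul_apply, smul_eq_mul, ev]
  field_simp
  linear_combination this

variable [Fintype κ] {a : ℕ}

/-- Scaling of a syzygy. -/
theorem scale_syz (hF : ∀ j, HomE a (F j)) {h : ν → MvPolynomial κ ℂ}
    (hh : ∑ j, h j * F j = 0) {c : ℂ} (hc : c ≠ 0) :
    ∑ j, pull (c • LinearMap.id) (h j) * F j = 0 := by
  apply MvPolynomial.funext
  intro y
  have h1 := congrArg (eval (c • y)) hh
  rw [map_sum, map_zero] at h1
  rw [map_sum, map_zero]
  have h2 : c ^ a * ∑ j, eval y (pull (c • LinearMap.id) (h j) * F j) = 0 := by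
    rw [← h1, Finset.mul_sum]
    refine Finset.sum_congr rfl fun j _ => ?_
    rw [map_mul, map_mul, eval_pull, hF j c y, LinearMap.smul_apply, LinearMap.id_apply]
    ring
  exact (mul_eq_zero.1 h2).resolve_left (pow_ne_zero _ hc)

theorem Syz.smul_left (h : Syz F x η) (hF : ∀ j, HomE a (F j)) {c : ℂ} (hc : c ≠ 0) :
    Syz F (c • x) η := by
  intro p hp
  have := h _ (scale_syz hF hp hc)
  simpa [eval_pull] using this

/-- The homogeneous components of a syzygy are syzygies. -/
theorem syz_component (hF : ∀ j, HomE a (F j)) {h : ν → MvPolynomial κ ℂ}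
    (hh : ∑ j, h j * F j = 0) (d : ℕ) :
    ∑ j, homogeneousComponent d (h j) * F j = 0 := by
  classical
  apply MvPolynomial.funext
  intro y
  rw [map_zero]
  let D := ∑ j, (h j).totalDegree
  have hD : ∀ j, (h j).totalDegree ≤ D := fun j =>
    Finset.single_le_sum (f := fun j => (h j).totalDegree) (fun _ _ => Nat.zero_le _)
      (Finset.mem_univ j)
  have hsum : ∀ (j : ν) (z : κ → ℂ), eval z (h j) =
      ∑ i ∈ Finset.range (D + 1), eval z (homogeneousComponent i (h j)) := by
    intro j z
    conv_lhs => rw [← sum_homogeneousComponent (h j)]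
    rw [map_sum]
    refine Finset.sum_subset ?_ ?_
    · intro i hi
      have := Finset.mem_range.1 hi
      have := hD j
      exact Finset.mem_range.2 (by omega)
    · intro i _ hi
      rw [homogeneousComponent_eq_zero i _ (by simp at hi; omega), map_zero]
  let Q : Polynomial ℂ := ∑ i ∈ Finset.range (D + 1),
    Polynomial.C (eval y (∑ j, homogeneousComponent i (h j) * F j)) * Polynomial.X ^ i
  have hQ : Q = 0 := by
    apply Polynomial.eq_zero_of_infinite_isRoot
    apply Set.Infinite.mono (s := {c : ℂ | c ≠ 0})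
    · intro c hc
      have h1 := congrArg (eval y) (scale_syz hF hh hc)
      rw [map_sum, map_zero] at h1
      rw [Set.mem_ofPred_eq, Polynomial.IsRoot, ← h1]
      simp only [Q, Polynomial.eval_finsetSum, Polynomial.eval_mul, Polynomial.eval_C,
        Polynomial.eval_pow, Polynomial.eval_X, map_sum, Finset.sum_mul]
      rw [Finset.sum_comm]
      refine Finset.sum_congr rfl fun j _ => ?_
      rw [map_mul, eval_pull, LinearMap.smul_apply, LinearMap.id_apply, hsum, Finset.sum_mul]
      refine Finset.sum_congr rfl fun i _ => ?_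
      rw [map_mul, homE_of_isHomogeneous (homogeneousComponent_isHomogeneous i (h j)) c y]
      ring
    · have : {c : ℂ | c ≠ 0} = ({0} : Set ℂ)ᶜ := by ext c; simp
      rw [this]
      exact (Set.finite_singleton (0 : ℂ)).infinite_compl
  by_cases hd : d ∈ Finset.range (D + 1)
  · have := congrArg (fun q : Polynomial ℂ => q.coeff d) hQ
    simp only [Q, Polynomial.finsetSum_coeff, Polynomial.coeff_C_mul_X_pow,
      Polynomial.coeff_zero] at this
    rw [Finset.sum_ite_eq] at this
    rwa [if_pos hd] at this
  · rw [map_sum]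
    refine Finset.sum_eq_zero fun j _ => ?_
    rw [homogeneousComponent_eq_zero d (h j) (by have := hD j; simp at hd; omega), zero_mul,
      map_zero]

/-- It suffices to check homogeneous syzygies. -/
theorem syz_of_hom (hF : ∀ j, HomE a (F j))
    (H : ∀ (d : ℕ) (h : ν → MvPolynomial κ ℂ), (∀ j, HomE d (h j)) → ∑ j, h j * F j = 0 →
      ∑ j, eval x (h j) * η j = 0) : Syz F x η := by
  classical
  intro h hh
  let D := ∑ j, (h j).totalDegree
  have hD : ∀ j, (h j).totalDegree ≤ D := fun j =>
    Finset.single_le_sum (f := fun j => (h j).totalDegree) (fun _ _ => Nat.zero_le _)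
      (Finset.mem_univ j)
  have hsum : ∀ (j : ν), eval x (h j) =
      ∑ i ∈ Finset.range (D + 1), eval x (homogeneousComponent i (h j)) := by
    intro j
    conv_lhs => rw [← sum_homogeneousComponent (h j)]
    rw [map_sum]
    refine Finset.sum_subset ?_ ?_
    · intro i hi
      have := Finset.mem_range.1 hi
      have := hD j
      exact Finset.mem_range.2 (by omega)
    · intro i _ hi
      rw [homogeneousComponent_eq_zero i _ (by simp at hi; omega), map_zero]
  calc ∑ j, eval x (h j) * η j
      = ∑ i ∈ Finset.range (D + 1), ∑ j, eval x (homogeneousComponent i (h j)) * η j := by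
        rw [Finset.sum_comm]
        refine Finset.sum_congr rfl fun j _ => ?_
        rw [hsum, Finset.sum_mul]
    _ = 0 := Finset.sum_eq_zero fun i _ => H i _
        (fun j => homE_of_isHomogeneous (homogeneousComponent_isHomogeneous i (h j)))
        (syz_component hF hh i)

/-- For nonzero factors, membership of a decomposable tensor in the blow-up. -/
theorem syz_of_seg_mem (hF : ∀ j, HomE a (F j)) (h : seg x η ∈ Yc F) (hx : x ≠ 0)
    (hη : η ≠ 0) : Syz F x η := by
  obtain ⟨x₁, η₁, h1, h2⟩ := h
  obtain ⟨c, hc, rfl, rfl⟩ := seg_eq_seg h1 (seg_ne_zero hx hη)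
  have h3 := (h2.smul_left hF (inv_ne_zero hc)).smul_right c
  rwa [smul_smul, smul_smul, inv_mul_cancel₀ hc, mul_inv_cancel₀ hc, one_smul, one_smul] at h3

/-- The blow-up is a cone. -/
theorem yc_cone {F : ν → MvPolynomial κ ℂ} (c : ℂ) {z : κ × ν → ℂ} (hz : z ∈ Yc F) :
    c • z ∈ Yc F := by
  obtain ⟨x, η, rfl, h⟩ := hz
  exact ⟨x, c • η, (seg_smul_right c x η).symm, h.smul_right c⟩

theorem yc_zero_mem (F : ν → MvPolynomial κ ℂ) : (0 : κ × ν → ℂ) ∈ Yc F :=
  ⟨0, 0, by simp, syz_zero F 0⟩

end Syzygies

/-! ### the action of the group -/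

theorem st_HTR : ST_HTR := by
  intro D hD g
  have h1 : ∀ x, D.gr (oext D.ρ g x) = D.ρY g (D.gr x) := by
    intro x
    rw [VD.gr, VD.gr, VD.ρY, tens_seg, hD.fd.equi]
  refine ⟨h1, ?_, ?_⟩
  · intro b p q h
    have hinj : Function.Injective (oext D.ρ g) := by
      intro x y hxy
      have h2 := congrArg (oext D.ρ g⁻¹) hxy
      have h3 : ∀ z, oext D.ρ g⁻¹ (oext D.ρ g z) = z := by
        intro z
        rw [← Module.End.mul_apply, ← map_mul, inv_mul_cancel, map_one, Module.End.one_apply]
      rwa [h3, h3] at h2
    have hinjB : prep D.π g b ≠ 0 := by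
      intro h0
      have h3 : prep D.π g⁻¹ (prep D.π g b) = b := by
        rw [← Module.End.mul_apply, ← map_mul, inv_mul_cancel, map_one, Module.End.one_apply]
      rw [h0, map_zero] at h3
      exact h.b_ne h3.symm
    refine ⟨hD.Bfree.1 g b h.b_mem, hinjB, ?_, ?_, ?_⟩
    · have h4 := h.ind.map' (oext D.ρ g) (LinearMap.ker_eq_bot.2 hinj)
      have h5 : (oext D.ρ g) ∘ ![p, q] = ![oext D.ρ g p, oext D.ρ g q] := by
        funext i
        fin_cases i <;> rfl
      rwa [h5] at h4
    · exact h.ne
    · have h6 := hD.Zact g _ h.mem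
      have h7 : (fun i => (oext D.ρ g q) none * (oext D.ρ g p) (some i) -
          (oext D.ρ g p) none * (oext D.ρ g q) (some i)) =
          D.ρ g (fun i => q none * p (some i) - p none * q (some i)) := by
        have h8 : (fun i => q none * p (some i) - p none * q (some i)) =
            q none • (fun i => p (some i)) - p none • (fun i => q (some i)) := rfl
        rw [h8, map_sub, map_smul, map_smul]
        rfl
      rw [h7]
      exact h6
  · intro b x
    rw [h1]
    funext i
    exact hD.xd.inv i g b (D.gr x)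

end Pool.Agent.Helper87.VM
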