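import Mathlib
import Pool.Agent.Helper48.VMRT.Defs

/-!
Definitions for the statement of the existence theorem on isotrivial VMRT (`MP_39dd1a_ag`):
nonsingular cones, minimal families.
-/

set_option autoImplicit false

namespace Pool.Agent.Helper87.VM

open MvPolynomial Pool.Agent.Helper48.VMRT

/-- The projective variety with cone `Z` is nonsingular: near each point its ideal is generated
by polynomials whose differentials at the point are linearly independent. -/
def SmoothCone {w : ℕ} (Z : Set (Fin w → ℂ)) : Prop :=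
  ∀ z ∈ Z, z ≠ 0 → ∃ (c : ℕ) (F : Fin c → MvPolynomial (Fin w) ℂ),
    (∀ i, F i ∈ vanishingIdeal ℂ Z) ∧
    LinearIndependent ℂ (fun i => (fun j => eval z (pderiv j (F i)) : Fin w → ℂ)) ∧
    ∃ h : MvPolynomial (Fin w) ℂ, eval z h ≠ 0 ∧
      ∀ p ∈ vanishingIdeal ℂ Z, h * p ∈ Ideal.span (Set.range F)

/-- `H` is open in the space of all parametrized rational curves of degree `d` in `X`; a member
of `H` passes through the general point of `X`; no rational curve of smaller degree passes
through the general point of `X`. -/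
structure IsMinimal {N d : ℕ} (X : Set (Fin (N + 1) → ℂ)) (H : Set (Coef N d)) : Prop where
  isOpen : ∃ C : Set (Coef N d), ZClosed C ∧ ∀ c, IsCurve X c → (c ∈ H ↔ c ∉ C)
  general : ∃ A : Set (Fin (N + 1) → ℂ), ZClosed A ∧ (∃ v ∈ X, v ≠ 0 ∧ v ∉ A) ∧
    ∀ v ∈ X, v ≠ 0 → v ∉ A →
      (∃ c ∈ H, ∃ s t : ℂ, (s, t) ≠ (0, 0) ∧ pt c s t = v) ∧
      ∀ e < d, ∀ c : Coef N e, IsCurve X c → ∀ s t : ℂ, (s, t) ≠ (0, 0) → pt c s t ≠ v

end Pool.Agent.Helper87.VM
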