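import Pool.Agent.Helper87.VM.Lib2

/-!
The existence theorem on isotrivial VMRT (`MP_39dd1a_ag`) for an arbitrary degenerate
nonsingular model with a finite group acting transitively on the components.
-/

set_option autoImplicit false

namespace Pool.Agent.Helper87.VM

open MvPolynomial Pool.Agent.Helper48.VMRT

/-- A hyperplane as the first factor of a product decomposition. -/
theorem final_phi (w : ℕ) (l : (Fin (w + 1) → ℂ) →ₗ[ℂ] ℂ) (hl : l ≠ 0) :
    ∃ φ : ((Fin w → ℂ) × ℂ) ≃ₗ[ℂ] (Fin (w + 1) → ℂ), ∀ z c, l (φ (z, c)) = c := by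
  obtain ⟨e0, he0⟩ : ∃ e, l e ≠ 0 := by
    by_contra hn
    push Not at hn
    exact hl (LinearMap.ext hn)
  have he : l ((l e0)⁻¹ • e0) = 1 := by
    rw [map_smul, smul_eq_mul, inv_mul_cancel₀ he0]
  set e := (l e0)⁻¹ • e0 with hedef
  have hr : LinearMap.range l = ⊤ := LinearMap.range_eq_top.2 (fun c => ⟨c • e, by
    rw [map_smul, he, smul_eq_mul, mul_one]⟩)
  have hfin : Module.finrank ℂ (Fin w → ℂ) = Module.finrank ℂ (LinearMap.ker l) := by
    have h1 := LinearMap.finrank_range_add_finrank_ker l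
    rw [hr, finrank_top, Module.finrank_self, Module.finrank_fin_fun] at h1
    rw [Module.finrank_fin_fun]
    omega
  let ψ : (Fin w → ℂ) ≃ₗ[ℂ] LinearMap.ker l := LinearEquiv.ofFinrankEq _ _ hfin
  let f : ((Fin w → ℂ) × ℂ) →ₗ[ℂ] (Fin (w + 1) → ℂ) :=
    LinearMap.coprod ((LinearMap.ker l).subtype.comp ψ.toLinearMap)
      (LinearMap.toSpanSingleton ℂ _ e)
  have hf : ∀ z c, f (z, c) = (ψ z : Fin (w + 1) → ℂ) + c • e := by
    intro z c
    simp [f, LinearMap.coprod_apply]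
  have hlf : ∀ z c, l (f (z, c)) = c := by
    intro z c
    rw [hf, map_add, map_smul, he, LinearMap.mem_ker.1 (ψ z).2, zero_add, smul_eq_mul, mul_one]
  have hinj : Function.Injective f := by
    rw [← LinearMap.ker_eq_bot, LinearMap.ker_eq_bot']
    rintro ⟨z, c⟩ h0
    have hc : c = 0 := by
      rw [← hlf z c, h0, map_zero]
    subst hc
    rw [hf, zero_smul, add_zero] at h0
    have h1 : ψ z = 0 := Subtype.ext h0
    have h2 : z = 0 := by
      have := congrArg ψ.symm h1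
      rwa [LinearEquiv.symm_apply_apply, map_zero] at this
    rw [h2]
    rfl
  have hsurj : Function.Surjective f := by
    intro x
    have hx : x - l x • e ∈ LinearMap.ker l := by
      rw [LinearMap.mem_ker, map_sub, map_smul, he, smul_eq_mul, mul_one, sub_self]
    refine ⟨(ψ.symm ⟨x - l x • e, hx⟩, l x), ?_⟩
    rw [hf, LinearEquiv.apply_symm_apply]
    exact sub_add_cancel x (l x • e)
  exact ⟨LinearEquiv.ofBijective f ⟨hinj, hsurj⟩, fun z c => hlf z c⟩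

theorem st_FINAL (hMAIN : ST_MAIN) (hSMR : ST_SMR) : ST_FINAL := by
  classical
  intro n ι _ hι Z hZ hsm hl G hGfin hG htr
  obtain ⟨l, hl0, hlZ⟩ := hl
  obtain ⟨w, rfl⟩ : ∃ w, n = w + 1 := by
    cases n with
    | zero =>
      exfalso
      apply hl0
      apply LinearMap.ext
      intro x
      have : x = 0 := Subsingleton.elim _ _
      rw [this, map_zero, map_zero]
    | succ w => exact ⟨w, rfl⟩
  obtain ⟨φ, hφ⟩ := final_phi w l hl0
  have hG' : Fintype G := Fintype.ofFinite G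
  -- the inclusion of the hyperplane and the projection
  let inc : (Fin w → ℂ) →ₗ[ℂ] (Fin (w + 1) → ℂ) :=
    φ.toLinearMap.comp (LinearMap.inl ℂ (Fin w → ℂ) ℂ)
  let pr : (Fin (w + 1) → ℂ) →ₗ[ℂ] (Fin w → ℂ) :=
    (LinearMap.fst ℂ (Fin w → ℂ) ℂ).comp φ.symm.toLinearMap
  have hinc : ∀ z, inc z = φ (z, 0) := fun z => rfl
  have hpr : ∀ z c, pr (φ (z, c)) = z := by
    intro z c
    change (φ.symm (φ (z, c))).1 = z
    rw [LinearEquiv.symm_apply_apply]
  have hincpr : ∀ x, l x = 0 → inc (pr x) = x := by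
    intro x hx
    obtain ⟨⟨z, c⟩, rfl⟩ := φ.surjective x
    rw [hφ] at hx
    rw [hpr, hinc, hx]
  have hlinc : ∀ z, l (inc z) = 0 := fun z => hφ z 0
  -- the span of the model and a projection onto it
  let U := Submodule.span ℂ (⋃ i, Z i)
  have hUl : ∀ x ∈ U, l x = 0 := by
    intro x hx
    have : U ≤ LinearMap.ker l := by
      rw [Submodule.span_le]
      intro y hy
      obtain ⟨i, hi⟩ := Set.mem_iUnion.1 hy
      exact LinearMap.mem_ker.2 (hlZ i y hi)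
    exact LinearMap.mem_ker.1 (this hx)
  have hGU : ∀ g ∈ G, ∀ x ∈ U, g x ∈ U := by
    intro g hg x hx
    have h1 : U ≤ U.comap g.toLinearMap := by
      rw [Submodule.span_le]
      intro y hy
      change g y ∈ U
      apply Submodule.subset_span
      rw [← hG g hg]
      exact ⟨y, hy, rfl⟩
    exact h1 hx
  obtain ⟨P, hP⟩ := U.subtype.exists_leftInverse_of_injective (Submodule.ker_subtype U)
  let P0 : (Fin (w + 1) → ℂ) →ₗ[ℂ] (Fin (w + 1) → ℂ) := U.subtype.comp P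
  have hP0 : ∀ x, P0 x ∈ U := fun x => (P x).2
  have hP1 : ∀ x ∈ U, P0 x = x := by
    intro x hx
    have := LinearMap.congr_fun hP ⟨x, hx⟩
    change ((P x : U) : Fin (w + 1) → ℂ) = x
    exact congrArg Subtype.val this
  let σ : G → (Fin (w + 1) → ℂ) →ₗ[ℂ] (Fin (w + 1) → ℂ) := fun g =>
    (g : (Fin (w + 1) → ℂ) ≃ₗ[ℂ] (Fin (w + 1) → ℂ)).toLinearMap.comp P0 + (LinearMap.id - P0)
  have hσ : ∀ g x, σ g x = (g : (Fin (w + 1) → ℂ) ≃ₗ[ℂ] (Fin (w + 1) → ℂ)) (P0 x) +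
      (x - P0 x) := fun g x => rfl
  have hσl : ∀ g x, l x = 0 → l (σ g x) = 0 := by
    intro g x hx
    rw [hσ, map_add, map_sub, hx, hUl _ (hP0 x), hUl _ (hGU g g.2 _ (hP0 x))]
    simp
  have hσmul : ∀ g h x, σ (g * h) x = σ g (σ h x) := by
    intro g h x
    have e1 : P0 (σ h x) = (h : (Fin (w + 1) → ℂ) ≃ₗ[ℂ] (Fin (w + 1) → ℂ)) (P0 x) := by
      rw [hσ, map_add, map_sub, hP1 _ (hGU h h.2 _ (hP0 x)), hP1 _ (hP0 x), sub_self, add_zero]
    rw [hσ g, e1, hσ, hσ]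
    rw [add_sub_cancel_left]
    rfl
  have hσone : ∀ x, σ 1 x = x := by
    intro x
    rw [hσ]
    change P0 x + (x - P0 x) = x
    rw [add_sub_cancel]
  have hσU : ∀ g, ∀ x ∈ U, σ g x = (g : (Fin (w + 1) → ℂ) ≃ₗ[ℂ] (Fin (w + 1) → ℂ)) x := by
    intro g x hx
    rw [hσ, hP1 x hx, sub_self, add_zero]
  let ρ : G →* ((Fin w → ℂ) →ₗ[ℂ] (Fin w → ℂ)) :=
    { toFun := fun g => pr.comp ((σ g).comp inc)
      map_one' := by
        apply LinearMap.ext
        intro z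
        change pr (σ 1 (inc z)) = z
        rw [hσone, hinc, hpr]
      map_mul' := by
        intro g h
        apply LinearMap.ext
        intro z
        change pr (σ (g * h) (inc z)) = pr (σ g (inc (pr (σ h (inc z)))))
        rw [hincpr _ (hσl h _ (hlinc z)), hσmul] }
  have hρ : ∀ (g : G) z, inc (ρ g z) = σ g (inc z) := by
    intro g z
    change inc (pr (σ g (inc z))) = _
    exact hincpr _ (hσl g _ (hlinc z))
  -- the model in the hyperplane
  let Zi : ι → Set (Fin w → ℂ) := fun i => {z | φ (z, 0) ∈ Z i}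
  have hU : ⋃ i, Zi i = {z | φ (z, 0) ∈ ⋃ i, Z i} := by
    ext z
    simp only [Zi, Set.mem_iUnion, Set.mem_ofPred_eq]
  have hρZ : ∀ (g : G) z, φ (z, 0) ∈ ⋃ i, Z i → φ (ρ g z, 0) =
      (g : (Fin (w + 1) → ℂ) ≃ₗ[ℂ] (Fin (w + 1) → ℂ)) (φ (z, 0)) := by
    intro g z hz
    rw [← hinc, hρ, hinc]
    exact hσU g _ (Submodule.subset_span hz)
  have hlift : ∀ i, ∀ x ∈ Z i, ∃ z, x = φ (z, 0) := by
    intro i x hx
    exact ⟨pr x, by rw [← hinc, hincpr x (hlZ i x hx)]⟩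
  have hcl : ∀ i, ZClosed (Zi i) := by
    intro i
    have h1 := zclosed_preimage (hZ.closed i)
      (fun j => linp ((LinearMap.proj j : (Fin (w + 1) → ℂ) →ₗ[ℂ] ℂ).comp inc))
    have h2 : {x : Fin w → ℂ | ev (fun j => linp
        ((LinearMap.proj j : (Fin (w + 1) → ℂ) →ₗ[ℂ] ℂ).comp inc)) x ∈ Z i} = Zi i := by
      ext x
      rw [Set.mem_ofPred_eq, ev_linp]
      exact Iff.rfl
    rwa [h2] at h1
  have hcone : ∀ i, ∀ a : ℂ, ∀ z ∈ Zi i, a • z ∈ Zi i := by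
    intro i a z hz
    have h1 : φ (a • z, 0) = a • φ (z, 0) := by
      rw [← map_smul, Prod.smul_mk, smul_zero]
    change φ (a • z, 0) ∈ Z i
    rw [h1]
    exact hZ.cone i a _ hz
  have hirr : ∀ i, (vanishingIdeal ℂ (Zi i)).IsPrime := by
    intro i
    have h1 := prime_image
      (fun j => linp ((LinearMap.proj j : (Fin w → ℂ) →ₗ[ℂ] ℂ).comp pr)) (hZ.irred i)
    have h2 : ev (fun j => linp ((LinearMap.proj j : (Fin w → ℂ) →ₗ[ℂ] ℂ).comp pr)) '' Z i =
        Zi i := by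
      ext z
      constructor
      · rintro ⟨x, hx, rfl⟩
        rw [ev_linp]
        change φ (pr x, 0) ∈ Z i
        rw [← hinc, hincpr x (hlZ i x hx)]
        exact hx
      · intro hz
        refine ⟨φ (z, 0), hz, ?_⟩
        rw [ev_linp, hpr]
    rwa [h2] at h1
  have hne : ∀ i, ∃ z ∈ Zi i, z ≠ 0 := by
    intro i
    obtain ⟨x, hx, hx0⟩ := hZ.exists_ne i
    obtain ⟨z, rfl⟩ := hlift i x hx
    refine ⟨z, hx, fun h0 => hx0 ?_⟩
    rw [h0]
    exact map_zero φ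
  have hsm' : SmoothCone (⋃ i, Zi i) := by
    rw [hU]
    refine hSMR w (w + 1) φ (⋃ i, Z i) ?_ hsm
    intro x hx
    obtain ⟨i, hi⟩ := Set.mem_iUnion.1 hx
    exact hlift i x hi
  have hact : ∀ g, ∀ z ∈ ⋃ i, Zi i, ρ g z ∈ ⋃ i, Zi i := by
    intro g z hz
    rw [hU] at hz ⊢
    change φ (ρ g z, 0) ∈ ⋃ i, Z i
    rw [hρZ g z hz, ← hG g g.2]
    exact ⟨_, hz, rfl⟩
  have htr' : ∀ i j, ∃ g, (fun z => ρ g z) '' Zi i = Zi j := by
    intro i j
    obtain ⟨g, hg, hgij⟩ := htr i j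
    refine ⟨⟨g, hg⟩, ?_⟩
    ext z
    constructor
    · rintro ⟨z', hz', rfl⟩
      change φ (ρ ⟨g, hg⟩ z', 0) ∈ Z j
      rw [hρZ ⟨g, hg⟩ z' (Set.mem_iUnion.2 ⟨i, hz'⟩), ← hgij]
      exact ⟨_, hz', rfl⟩
    · intro hz
      have hz1 : φ (z, 0) ∈ Z j := hz
      rw [← hgij] at hz1
      obtain ⟨x, hx, hxz⟩ := hz1
      obtain ⟨z', rfl⟩ := hlift i x hx
      refine ⟨z', hx, ?_⟩
      have h1 := hρZ ⟨g, hg⟩ z' (Set.mem_iUnion.2 ⟨i, hx⟩)
      have h2 : φ (ρ ⟨g, hg⟩ z', 0) = φ (z, 0) := by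
        rw [h1]
        exact hxz
      have h3 := φ.injective h2
      exact (Prod.mk.inj h3).1
  obtain ⟨N, d, X, H, hX, hH, hmin, A, hA, hAne, hAll⟩ :=
    hMAIN w ι Zi G ρ hcl hcone hirr hne hsm' hact htr'
  refine ⟨N, d, X, H, hX, hH, hmin, A, hA, hAne, ?_⟩
  intro v hv hv0 hvA
  obtain ⟨g, hginj, hg1, hg2, hg3⟩ := hAll v hv hv0 hvA
  have hrange : LinearMap.range (g.comp φ.symm.toLinearMap) = LinearMap.range g :=
    LinearMap.range_comp_of_range_eq_top g (LinearEquiv.range φ.symm)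
  refine ⟨g.comp φ.symm.toLinearMap, ?_, ?_, ?_, ?_⟩
  · exact hginj.comp φ.symm.injective
  · rw [hrange]
    exact hg1
  · rw [hrange]
    exact hg2
  · rw [hg3]
    ext u
    constructor
    · rintro ⟨z, hz, a, rfl⟩
      rw [hU] at hz
      refine ⟨φ (z, 0), hz, a, ?_⟩
      change g (z, 0) + a • v = g (φ.symm (φ (z, 0))) + a • v
      rw [LinearEquiv.symm_apply_apply]
    · rintro ⟨x, hx, a, rfl⟩
      obtain ⟨i, hi⟩ := Set.mem_iUnion.1 hx
      obtain ⟨z, rfl⟩ := hlift i x hi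
      refine ⟨z, Set.mem_iUnion.2 ⟨i, hi⟩, a, ?_⟩
      change g (φ.symm (φ (z, 0))) + a • v = g (z, 0) + a • v
      rw [LinearEquiv.symm_apply_apply]

end Pool.Agent.Helper87.VM
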