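import Pool.Agent.Helper87.VM.Lib2

/-!
Free quotients of projective manifolds by finite groups (module QUO of `MP_39dd1a_ag`).
-/

set_option autoImplicit false

namespace Pool.Agent.Helper87.VM

open MvPolynomial Pool.Agent.Helper48.VMRT

theorem quo_lin {κ μ : Type} [Fintype κ] [Fintype μ] {f : μ → MvPolynomial κ ℂ}
    {p : MvPolynomial κ ℂ} (hp : p ∈ Submodule.span ℂ (Set.range f)) :
    ∃ c : μ → ℂ, (∀ x, eval x p = ∑ i, c i * ev f x i) ∧
      ∀ x v, dpol p x v = ∑ i, c i * dev f x v i := by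
  obtain ⟨c, hc⟩ := (Submodule.mem_span_range_iff_exists_fun ℂ).1 hp
  refine ⟨c, fun x => ?_, fun x v => ?_⟩
  · rw [← hc, map_sum]
    refine Finset.sum_congr rfl fun i _ => ?_
    rw [smul_eval]
    rfl
  · rw [← hc, dpol_sum]
    refine Finset.sum_congr rfl fun i _ => ?_
    rw [dpol_smul]
    rfl

theorem st_QUO (hB : ST_BUMP) (hI : ST_IMG) (hT : ST_TAN) : ST_QUO := by
  intro G κ μ _ _ _ _ n ρ S k f hS hfree hk hG hhom hinv hspan
  obtain ⟨b1, b2, b3⟩ := hB G κ ρ S k hfree hk hG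
  have hne : ∀ x ∈ S, x ≠ 0 → ev f x ≠ 0 := by
    intro x hx hx0 h0
    obtain ⟨p, hp1, hp2, hp3⟩ := b1 x hx hx0
    obtain ⟨c, hc, _⟩ := quo_lin (hspan p hp1 hp2)
    apply hp3
    rw [hc, h0]
    simp
  have hsep : ∀ x ∈ S, x ≠ 0 → ∀ y ∈ S, y ≠ 0 → ∀ a : ℂ, ev f y = a • ev f x →
      ∃ (g : G) (c : ℂ), y = c • ρ g x := by
    intro x hx hx0 y hy hy0 a ha
    by_contra hn
    push Not at hn
    obtain ⟨p, hp1, hp2, hp3, hp4⟩ := b2 y hy hy0 x hx hx0 hn
    obtain ⟨c, hc, _⟩ := quo_lin (hspan p hp1 hp2)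
    apply hp3
    have h1 : eval y p = a * eval x p := by
      rw [hc, hc, ha, Finset.mul_sum]
      refine Finset.sum_congr rfl fun i _ => ?_
      rw [Pi.smul_apply, smul_eq_mul]; ring
    rw [h1, hp4, mul_zero]
  have hinj : ∀ x ∈ S, x ≠ 0 → ∀ u, dev f x u = 0 → u = 0 := by
    intro x hx hx0 u hu
    refine b3 x hx hx0 u fun p hp1 hp2 => ?_
    obtain ⟨c, _, hc⟩ := quo_lin (hspan p hp1 hp2)
    rw [hc, hu]
    simp
  have htan : ∀ x ∈ S, x ≠ 0 → ∀ v, v ∈ tsp (ev f '' S) (ev f x) ↔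
      ∃ u ∈ tsp S x, v = dev f x u := by
    intro x hx hx0 v
    constructor
    · intro hv
      obtain ⟨u, hu, e⟩ := hT G κ μ ρ S k f hS.closed hS.cone hfree hk hG hhom hinv hspan x hx
        hx0 v hv
      exact ⟨u, hu, e.symm⟩
    · rintro ⟨u, hu, rfl⟩
      exact dev_mem_tsp (S' := ev f '' S) f (fun y hy => ⟨y, hy, rfl⟩) hu
  refine ⟨?_, hne, hsep, htan, hinj⟩
  refine ⟨?_, ?_, prime_image f hS.irred, ?_, ?_⟩
  · refine hI κ μ S k f hk hS.closed hS.cone hhom fun x hx h0 => ?_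
    by_contra hx0
    exact hne x hx hx0 h0
  · rintro a _ ⟨x, hx, rfl⟩
    obtain ⟨z, hz⟩ := IsAlgClosed.exists_pow_nat_eq a (show 0 < k by omega)
    refine ⟨z • x, hS.cone z x hx, ?_⟩
    funext i
    rw [Pi.smul_apply, smul_eq_mul, ← hz]
    exact hhom i z x
  · obtain ⟨x, hx, hx0⟩ := hS.exists_ne
    exact ⟨ev f x, ⟨x, hx, rfl⟩, hne x hx hx0⟩
  · rintro _ ⟨x, hx, rfl⟩ hy0
    have hx0 : x ≠ 0 := by
      rintro rfl
      apply hy0
      funext i
      have h1 := hhom i 0 0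
      rw [zero_smul, zero_pow (by omega), zero_mul] at h1
      exact h1
    have h1 : tsp (ev f '' S) (ev f x) = Submodule.map (devL f x) (tsp S x) := by
      ext v
      rw [htan x hx hx0 v, Submodule.mem_map]
      constructor
      · rintro ⟨u, hu, rfl⟩
        exact ⟨u, hu, rfl⟩
      · rintro ⟨u, hu, rfl⟩
        exact ⟨u, hu, rfl⟩
    have h2 : Function.Injective (devL f x) := by
      rw [← LinearMap.ker_eq_bot, LinearMap.ker_eq_bot']
      intro u hu
      exact hinj x hx hx0 u hu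
    rw [h1, ← (Submodule.equivMapOfInjective (devL f x) h2 (tsp S x)).finrank_eq]
    exact hS.smooth x hx hx0

end Pool.Agent.Helper87.VM
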