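import Pool.Agent.Helper87.VM.Main
import Pool.Agent.Helper87.VM.Final
import Pool.Agent.Helper87.VM.QUO
import Pool.Agent.Helper7.VM.PROD
import Pool.Agent.Helper58.VM.LB
import Pool.Agent.Helper71.VM.SEG
import Pool.Agent.Helper74.VM.BUMP
import Pool.Agent.Helper96.VM.FIN
import Pool.Agent.Helper64.VM.IMG
import Pool.Agent.Helper74.VM.ALGJ
import Pool.Agent.Helper68.VM.TAN
import Pool.Agent.Helper28.VM.TP
import Pool.Agent.Helper8.VM.XEX
import Pool.Agent.Helper72.VM.HEN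
import Pool.Agent.Helper30.VM.GAL
import Pool.Agent.Helper57.VM.CDIST
import Pool.Agent.Helper77.VM.CIRR
import Pool.Agent.Helper32.VM.CUP
import Pool.Agent.Helper53.VM.CLO
import Pool.Agent.Helper1.VM.Cfree
import Pool.Agent.Helper64.VM.CEX
import Pool.Agent.Helper3.VM.FLOC
import Pool.Agent.Helper95.VM.FDEX
import Pool.Agent.Helper63.VM.YCL
import Pool.Agent.Helper32.VM.YFIB
import Pool.Agent.Helper72.VM.YIR
import Pool.Agent.Helper33.VM.YUP
import Pool.Agent.Helper55.VM.YLO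
import Pool.Agent.Helper7.VM.YPM
import Pool.Agent.Helper45.VM.YACT
import Pool.Agent.Helper44.VM.FAC1
import Pool.Agent.Helper85.VM.FAC2
import Pool.Agent.Helper74.VM.BAD
import Pool.Agent.Helper28.VM.LIFT
import Pool.Agent.Helper16.VM.YC
import Pool.Agent.Helper32.VM.CURV
import Pool.Agent.Helper41.VM.MEM
import Pool.Agent.Helper48.VM.PAR
import Pool.Agent.Helper23.VM.HCUR
import Pool.Agent.Helper83.VM.RES
import Pool.Agent.Helper80.VM.HIRR
import Pool.Agent.Helper21.VM.HLC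
import Pool.Agent.Helper32.VM.NF
import Pool.Agent.Helper45.VM.THR
import Pool.Agent.Helper8.VM.VT
import Pool.Agent.Helper55.VM.VTS
import Pool.Agent.Helper32.VM.ISO
import Pool.Agent.Helper94.VM.SMR
import Pool.Agent.Helper11.VM.VERT
import Pool.Agent.Helper99.VM.GALA
import Pool.Agent.Helper59.VM.ALG

/-!
The complete existence theorem on isotrivial VMRT (`MP_39dd1a_ag`).
-/

set_option autoImplicit false

namespace Pool.Agent.Helper87.VM

theorem all_TAN : ST_TAN := st_TAN (st_BUMP st_BUMP0) st_FIN (Pool.Agent.Helper59.VM.st_ALG st_ALGJ)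

theorem all_QUO : ST_QUO := st_QUO (st_BUMP st_BUMP0) (st_IMG st_FIN) all_TAN

theorem all_FINAL : ST_FINAL := by
  have hTP := st_TP all_QUO
  have hXEX := st_XEX (st_SEG st_PROD) hTP all_QUO
  have hVERT := st_VERT st_BUMP0 (st_BUMP st_BUMP0) st_FAC1 st_FAC2
  have hCIRR := st_CIRR (st_GAL (st_GALA st_HEN))
  have hCEX := st_CEX hCIRR (st_CUP st_CDIST) (st_CLO st_HEN hCIRR st_LB) (st_CFREE st_CDIST)
  have hYIR := st_YIR st_YFIB
  have hYPM := st_YPM st_YCL hYIR st_YUP (st_YLO hYIR st_LB)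
  have hCURV := st_CURV hVERT (st_LIFT st_BUMP0 st_FAC2) (st_YC st_FAC1)
  have hHCUR := st_HCUR st_MEM
  have hBAD := st_BAD st_BUMP0
  have hTHR := st_THR st_NF st_PAR hCURV
  have hISO := st_ISO (st_VT st_NF st_MEM hHCUR st_PAR) st_VTS
  exact st_FINAL (st_MAIN hCEX (st_FDEX st_FLOC) hYPM st_YACT hXEX hBAD hHCUR
    (st_HIRR st_PROD st_PAR) (st_HLC hCURV hHCUR st_RES hBAD) hTHR hISO) st_SMR

end Pool.Agent.Helper87.VM
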