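import Mathlib
import Pool.Agent.Helper48.VMRT.Defs
import Pool.Agent.Helper87.VM.Out

/-!
Definitions for the existence theorem on isotrivial VMRT with a reducible model
(`MP_39dd1a_ag`).  Projective varieties are represented by their affine cones.
-/

set_option autoImplicit false

namespace Pool.Agent.Helper87.VM

open MvPolynomial Pool.Agent.Helper48.VMRT

/-- The differential of the polynomial `p` at `x` in the direction `v`. -/
noncomputable def dpol {κ : Type} [Fintype κ] (p : MvPolynomial κ ℂ) (x v : κ → ℂ) : ℂ :=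
  ∑ i, eval x (pderiv i p) * v i

/-- The Zariski tangent space of the set `S` at `x`. -/
noncomputable def tsp {κ : Type} [Fintype κ] (S : Set (κ → ℂ)) (x : κ → ℂ) :
    Submodule ℂ (κ → ℂ) where
  carrier := {v | ∀ p ∈ vanishingIdeal ℂ S, dpol p x v = 0}
  zero_mem' := fun p _ => by simp [dpol]
  add_mem' := fun {a b} ha hb p hp => by
    have h : dpol p x (a + b) = dpol p x a + dpol p x b := by
      simp only [dpol, Pi.add_apply, mul_add, Finset.sum_add_distrib]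
    rw [h, ha p hp, hb p hp, add_zero]
  smul_mem' := fun c a ha p hp => by
    have h : dpol p x (c • a) = c * dpol p x a := by
      simp only [dpol, Finset.mul_sum, Pi.smul_apply, smul_eq_mul]
      exact Finset.sum_congr rfl fun i _ => by ring
    rw [h, ha p hp, mul_zero]

/-- `S` is the affine cone over an irreducible nonsingular projective variety of dimension `n`. -/
structure PM {κ : Type} [Fintype κ] (n : ℕ) (S : Set (κ → ℂ)) : Prop where
  closed : ZClosed S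
  cone : ∀ a : ℂ, ∀ x ∈ S, a • x ∈ S
  irred : (vanishingIdeal ℂ S).IsPrime
  exists_ne : ∃ x ∈ S, x ≠ 0
  smooth : ∀ x ∈ S, x ≠ 0 → Module.finrank ℂ (tsp S x) = n + 1

/-- The polynomial map with components `F`. -/
noncomputable def ev {κ μ : Type} (F : μ → MvPolynomial κ ℂ) (x : κ → ℂ) : μ → ℂ :=
  fun i => eval x (F i)

/-- The differential of the polynomial map with components `F`. -/
noncomputable def dev {κ μ : Type} [Fintype κ] (F : μ → MvPolynomial κ ℂ) (x v : κ → ℂ) :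
    μ → ℂ :=
  fun i => dpol (F i) x v

/-- `p` is homogeneous of degree `k` (as a function). -/
def HomE {κ : Type} (k : ℕ) (p : MvPolynomial κ ℂ) : Prop :=
  ∀ (a : ℂ) (x : κ → ℂ), eval (a • x) p = a ^ k * eval x p

/-- `p` is invariant under the representation `ρ`. -/
def InvE {G κ : Type} [Group G] (ρ : G →* ((κ → ℂ) →ₗ[ℂ] (κ → ℂ)))
    (p : MvPolynomial κ ℂ) : Prop :=
  ∀ (g : G) (x : κ → ℂ), eval (ρ g x) p = eval x p

/-- `ρ` preserves the cone `S` and acts freely on the projective variety `ℙ S`. -/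
def FreeAct {G κ : Type} [Group G] (ρ : G →* ((κ → ℂ) →ₗ[ℂ] (κ → ℂ)))
    (S : Set (κ → ℂ)) : Prop :=
  (∀ g : G, ∀ x ∈ S, ρ g x ∈ S) ∧
    ∀ g : G, g ≠ 1 → ∀ x ∈ S, x ≠ 0 → ∀ a : ℂ, ρ g x ≠ a • x

/-- The permutation representation on functions attached to `π : G →* Perm κ`. -/
def prep {G κ : Type} [Group G] (π : G →* Equiv.Perm κ) :
    G →* ((κ → ℂ) →ₗ[ℂ] (κ → ℂ)) where
  toFun g := LinearMap.funLeft ℂ ℂ (fun i => (π g)⁻¹ i)
  map_one' := by
    ext x i
    simp [LinearMap.funLeft]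
  map_mul' g h := by
    ext x i
    simp [LinearMap.funLeft]

/-- The decomposable tensor `x ⊗ y`, as a function on the product of the index types. -/
def seg {κ₁ κ₂ : Type} (x : κ₁ → ℂ) (y : κ₂ → ℂ) : κ₁ × κ₂ → ℂ := fun p => x p.1 * y p.2

/-- The cone over the Segre product. -/
def segS {κ₁ κ₂ : Type} (S₁ : Set (κ₁ → ℂ)) (S₂ : Set (κ₂ → ℂ)) : Set (κ₁ × κ₂ → ℂ) :=
  {z | ∃ x ∈ S₁, ∃ y ∈ S₂, z = seg x y}

/-- The tensor product of two representations on spaces of functions. -/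
noncomputable def tens {G κ₁ κ₂ : Type} [Group G] [Fintype κ₁] [DecidableEq κ₁] [Fintype κ₂]
    [DecidableEq κ₂] (ρ₁ : G →* ((κ₁ → ℂ) →ₗ[ℂ] (κ₁ → ℂ)))
    (ρ₂ : G →* ((κ₂ → ℂ) →ₗ[ℂ] (κ₂ → ℂ))) :
    G →* ((κ₁ × κ₂ → ℂ) →ₗ[ℂ] (κ₁ × κ₂ → ℂ)) where
  toFun g := Matrix.toLin' (Matrix.kroneckerMap (fun a b => a * b)
    (LinearMap.toMatrix' (ρ₁ g)) (LinearMap.toMatrix' (ρ₂ g)))
  map_one' := by
    rw [map_one ρ₁, map_one ρ₂, Module.End.one_eq_id, Module.End.one_eq_id, LinearMap.toMatrix'_id,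
      LinearMap.toMatrix'_id, Matrix.one_kronecker_one, Matrix.toLin'_one]
    rfl
  map_mul' g h := by
    rw [map_mul ρ₁, map_mul ρ₂, Module.End.mul_eq_comp, Module.End.mul_eq_comp,
      LinearMap.toMatrix'_comp, LinearMap.toMatrix'_comp, Matrix.mul_kronecker_mul,
      Matrix.toLin'_mul]
    rfl

/-- The representation on `ℂ × (κ → ℂ)` (functions on `Option κ`), trivial on the new
coordinate. -/
noncomputable def oext {G κ : Type} [Group G] (ρ : G →* ((κ → ℂ) →ₗ[ℂ] (κ → ℂ))) :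
    G →* ((Option κ → ℂ) →ₗ[ℂ] (Option κ → ℂ)) where
  toFun g :=
    { toFun := fun x o => Option.rec (x none) (fun i => ρ g (fun j => x (some j)) i) o
      map_add' := fun x y => by
        funext o
        cases o with
        | none => rfl
        | some i =>
          have h : ρ g (fun j => x (some j) + y (some j)) =
              ρ g (fun j => x (some j)) + ρ g (fun j => y (some j)) := by
            rw [← map_add]; rfl
          exact congrFun h i
      map_smul' := fun c x => by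
        funext o
        cases o with
        | none => rfl
        | some i =>
          have h : ρ g (fun j => c * x (some j)) = c • ρ g (fun j => x (some j)) := by
            rw [← map_smul]; rfl
          exact congrFun h i }
  map_one' := by
    ext x o
    cases o with
    | none => rfl
    | some i => simp
  map_mul' g h := by
    ext x o
    cases o with
    | none => rfl
    | some i => simp

/-! ### the model variety and the data for the blow-up -/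

/-- The vector `(c, z)` as a function on `Option (Fin w)`. -/
def ov {w : ℕ} (c : ℂ) (z : Fin w → ℂ) : Option (Fin w) → ℂ := fun o => Option.rec c z o

/-- Forms `F j` of degree `a` in `x₀, x₁, …, x_w` (`none` is the index of `x₀`) spanning the
degree `a` part of the ideal of `Z ⊂ {x₀ = 0}`, with `a` large. -/
structure FD {G ν : Type} [Group G] [Fintype ν] {w : ℕ} (Z : Set (Fin w → ℂ))
    (ρ : G →* ((Fin w → ℂ) →ₗ[ℂ] (Fin w → ℂ))) (a : ℕ)
    (F : ν → MvPolynomial (Option (Fin w)) ℂ) (ρν : G →* ((ν → ℂ) →ₗ[ℂ] (ν → ℂ))) :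
    Prop where
  two_le : 2 ≤ a
  hom : ∀ j, HomE a (F j)
  zero : ∀ x : Option (Fin w) → ℂ,
    (∀ j, eval x (F j) = 0) ↔ x none = 0 ∧ (fun i => x (some i)) ∈ Z
  equi : ∀ g x, ev F (oext ρ g x) = ρν g (ev F x)
  span : ∀ m : MvPolynomial (Option (Fin w)) ℂ, HomE (a - 1) m →
    X none * m ∈ Submodule.span ℂ (Set.range F)
  loc : ∀ z ∈ Z, z ≠ 0 → ∃ (c : ℕ) (I : Fin c → ν),
    LinearIndependent ℂ (fun i => (fun o => eval (ov 0 z) (pderiv o (F (I i))) :
      Option (Fin w) → ℂ)) ∧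
    ∃ (h : MvPolynomial (Option (Fin w)) ℂ) (P : ν → Fin c → MvPolynomial (Option (Fin w)) ℂ),
      eval (ov 0 z) h ≠ 0 ∧ ∀ j, h * F j = ∑ i, P j i * F (I i)

/-- `η` satisfies at `x` all linear relations given by the syzygies of the forms `F j`. -/
def Syz {κ ν : Type} [Fintype ν] (F : ν → MvPolynomial κ ℂ) (x : κ → ℂ) (η : ν → ℂ) : Prop :=
  ∀ h : ν → MvPolynomial κ ℂ, ∑ j, h j * F j = 0 → ∑ j, eval x (h j) * η j = 0

/-- The cone over the blow-up along the scheme `F = 0`, in the Segre embedding. -/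
def Yc {κ ν : Type} [Fintype ν] (F : ν → MvPolynomial κ ℂ) : Set (κ × ν → ℂ) :=
  {z | ∃ x η, z = seg x η ∧ Syz F x η}

/-! ### the curve with a free action -/

/-- The cone over the curve `e₁ = … = e_{M-2} = 0` in `ℙ^(M-1)`, `M` the number of elements of
`κ`. -/
def Bc (κ : Type) [Fintype κ] : Set (κ → ℂ) :=
  {z | ∀ j, 1 ≤ j → j + 2 ≤ Fintype.card κ → eval z (esymm κ ℂ j) = 0}

/-! ### binary forms as polynomials in one variable -/

/-- Homogeneous evaluation of `p` as a binary form of degree `d`. -/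
noncomputable def hev (d : ℕ) (p : Polynomial ℂ) (s t : ℂ) : ℂ :=
  ∑ j ∈ Finset.range (d + 1), p.coeff j * s ^ (d - j) * t ^ j

/-- Homogeneous evaluation of a vector of binary forms of degree `d`. -/
noncomputable def hevv (d : ℕ) {κ : Type} (c : κ → Polynomial ℂ) (s t : ℂ) : κ → ℂ :=
  fun i => hev d (c i) s t

/-- `c` is a vector of binary forms of degree `d` without common zero. -/
structure Mor (d : ℕ) {κ : Type} (c : κ → Polynomial ℂ) : Prop where
  deg : ∀ i, (c i).natDegree ≤ d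
  ne : ∀ s t : ℂ, (s, t) ≠ (0, 0) → hevv d c s t ≠ 0

/-! ### bihomogeneous maps -/

section Bi

variable {κB κY μ : Type}

/-- The value at `(b, y)` of a polynomial map in two groups of variables. -/
noncomputable def ev2 (E : μ → MvPolynomial (κB ⊕ κY) ℂ) (b : κB → ℂ) (y : κY → ℂ) : μ → ℂ :=
  fun i => eval (Sum.elim b y) (E i)

/-- The differential of `ev2 E` at `(b, y)` in the direction `(b', y')`. -/
noncomputable def d2 [Fintype κB] [Fintype κY] (E : μ → MvPolynomial (κB ⊕ κY) ℂ)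
    (b : κB → ℂ) (y : κY → ℂ) (b' : κB → ℂ) (y' : κY → ℂ) : μ → ℂ :=
  fun i => dpol (E i) (Sum.elim b y) (Sum.elim b' y')

/-- The image of `B × Y`. -/
def XS (E : μ → MvPolynomial (κB ⊕ κY) ℂ) (B : Set (κB → ℂ)) (Y : Set (κY → ℂ)) :
    Set (μ → ℂ) :=
  {v | ∃ b ∈ B, ∃ y ∈ Y, v = ev2 E b y}

/-- `Φ` is bihomogeneous of bidegree `(T, k)` (as a function). -/
def BiHom (T k : ℕ) (Φ : MvPolynomial (κB ⊕ κY) ℂ) : Prop :=
  ∀ (a c : ℂ) (b : κB → ℂ) (y : κY → ℂ),
    eval (Sum.elim (a • b) (c • y)) Φ = a ^ T * c ^ k * eval (Sum.elim b y) Φ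

/-- `Φ` is invariant under the pair of representations. -/
def BiInv {G : Type} [Group G] (ρB : G →* ((κB → ℂ) →ₗ[ℂ] (κB → ℂ)))
    (ρY : G →* ((κY → ℂ) →ₗ[ℂ] (κY → ℂ))) (Φ : MvPolynomial (κB ⊕ κY) ℂ) : Prop :=
  ∀ (g : G) (b : κB → ℂ) (y : κY → ℂ),
    eval (Sum.elim (ρB g b) (ρY g y)) Φ = eval (Sum.elim b y) Φ

/-- `E` embeds the free quotient of `ℙB × ℙY` (dimension `1 + w`) by the group `G`, by all
invariant forms of bidegree `(T, k)`. -/
structure XD {G : Type} [Group G] [Fintype κB] [Fintype κY] [Fintype μ] (w T k : ℕ)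
    (ρB : G →* ((κB → ℂ) →ₗ[ℂ] (κB → ℂ))) (B : Set (κB → ℂ))
    (ρY : G →* ((κY → ℂ) →ₗ[ℂ] (κY → ℂ))) (Y : Set (κY → ℂ))
    (E : μ → MvPolynomial (κB ⊕ κY) ℂ) : Prop where
  hom : ∀ i, BiHom T k (E i)
  inv : ∀ i, BiInv ρB ρY (E i)
  lin : ∀ Φ : MvPolynomial (κB ⊕ κY) ℂ, BiHom T k Φ → BiInv ρB ρY Φ →
    ∃ l : (μ → ℂ) →ₗ[ℂ] ℂ, ∀ b y, l (ev2 E b y) = eval (Sum.elim b y) Φ
  ne : ∀ b ∈ B, b ≠ 0 → ∀ y ∈ Y, y ≠ 0 → ev2 E b y ≠ 0
  sep : ∀ b ∈ B, b ≠ 0 → ∀ y ∈ Y, y ≠ 0 → ∀ b' ∈ B, b' ≠ 0 → ∀ y' ∈ Y, y' ≠ 0 →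
    ∀ a : ℂ, ev2 E b' y' = a • ev2 E b y →
      ∃ (g : G) (c d : ℂ), b' = c • ρB g b ∧ y' = d • ρY g y
  pm : PM (w + 1) (XS E B Y)
  tan : ∀ b ∈ B, b ≠ 0 → ∀ y ∈ Y, y ≠ 0 → ∀ v : μ → ℂ,
    v ∈ tsp (XS E B Y) (ev2 E b y) ↔ ∃ b' ∈ tsp B b, ∃ y' ∈ tsp Y y, v = d2 E b y b' y'
  ker : ∀ b ∈ B, b ≠ 0 → ∀ y ∈ Y, y ≠ 0 → ∀ b' ∈ tsp B b, ∀ y' ∈ tsp Y y,
    d2 E b y b' y' = 0 → ∃ c : ℂ, b' = (c * k) • b ∧ y' = (-(c * T)) • y

end Bi

/-! ### the complete data -/

/-- The data of the construction. -/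
structure VD : Type 1 where
  G : Type
  [grp : Group G]
  [fin : Fintype G]
  w : ℕ
  ι : Type
  Zi : ι → Set (Fin w → ℂ)
  ρ : G →* ((Fin w → ℂ) →ₗ[ℂ] (Fin w → ℂ))
  κB : Type
  [fB : Fintype κB]
  [dB : DecidableEq κB]
  π : G →* Equiv.Perm κB
  B : Set (κB → ℂ)
  ν : Type
  [fν : Fintype ν]
  [dν : DecidableEq ν]
  a : ℕ
  F : ν → MvPolynomial (Option (Fin w)) ℂ
  ρν : G →* ((ν → ℂ) →ₗ[ℂ] (ν → ℂ))
  N : ℕ
  k : ℕ
  t : ℕ
  E : Fin (N + 1) → MvPolynomial (κB ⊕ (Option (Fin w) × ν)) ℂ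

attribute [instance] VD.grp VD.fin VD.fB VD.dB VD.fν VD.dν

namespace VD

variable (D : VD)

/-- The model variety. -/
def Z : Set (Fin D.w → ℂ) := ⋃ i, D.Zi i

/-- The blow-up. -/
def Y : Set (Option (Fin D.w) × D.ν → ℂ) := Yc D.F

/-- The action on the coordinates of the blow-up. -/
noncomputable def ρY :
    D.G →* ((Option (Fin D.w) × D.ν → ℂ) →ₗ[ℂ] (Option (Fin D.w) × D.ν → ℂ)) :=
  tens (oext D.ρ) D.ρν

/-- The cone over the projective manifold. -/
def X : Set (Fin (D.N + 1) → ℂ) := XS D.E D.B D.Y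

/-- The degree of the curves. -/
def dg : ℕ := D.k * D.a

/-- The point of the blow-up over `x`. -/
noncomputable def gr (x : Option (Fin D.w) → ℂ) : Option (Fin D.w) × D.ν → ℂ :=
  seg x (ev D.F x)

/-- All properties of the data that are used. -/
structure Good (D : VD) : Prop where
  ine : Nonempty D.ι
  Zcl : ∀ i, ZClosed (D.Zi i)
  ZZcl : ZClosed D.Z
  Zcone : ∀ i, ∀ a : ℂ, ∀ z ∈ D.Zi i, a • z ∈ D.Zi i
  Zirr : ∀ i, (vanishingIdeal ℂ (D.Zi i)).IsPrime
  Zne : ∀ i, ∃ z ∈ D.Zi i, z ≠ 0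
  Zact : ∀ g, ∀ z ∈ D.Z, D.ρ g z ∈ D.Z
  trans : ∀ i j, ∃ g, (fun z => D.ρ g z) '' D.Zi i = D.Zi j
  Bpm : PM 1 D.B
  Bfree : FreeAct (prep D.π) D.B
  fd : FD D.Z D.ρ D.a D.F D.ρν
  Ypm : PM D.w D.Y
  Yact : ∀ g, ∀ y ∈ D.Y, D.ρY g y ∈ D.Y
  kpos : 1 ≤ D.k
  kG : 2 * Fintype.card D.G ≤ D.k + 1
  tbig : D.k * D.a + 1 < D.t
  xd : XD D.w (D.k * D.t) D.k (prep D.π) D.B D.ρY D.Y D.E

/-- `b`, `p`, `q` define the proper transform of the line through `p`, `q` in the fibre of `b`: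
the line is not contained in `x₀ = 0` and meets the hyperplane `x₀ = 0` in a point of `Z`. -/
structure HP (b : D.κB → ℂ) (p q : Option (Fin D.w) → ℂ) : Prop where
  b_mem : b ∈ D.B
  b_ne : b ≠ 0
  ind : LinearIndependent ℂ ![p, q]
  ne : p none ≠ 0 ∨ q none ≠ 0
  mem : (fun i => q none * p (some i) - p none * q (some i)) ∈ D.Z

/-- The family of (parametrized) curves. -/
def H : Set (Coef D.N D.dg) :=
  {c | ∃ b p q, D.HP b p q ∧ ∀ s t : ℂ,
    (s * p none + t * q none) ^ D.k • pt c s t = ev2 D.E b (D.gr (s • p + t • q))}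

end VD

end Pool.Agent.Helper87.VM
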