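import Pool.Agent.Helper87.VM.Lib2

/-!
Assembly of the existence theorem on isotrivial VMRT (`MP_39dd1a_ag`), standard form.
-/

set_option autoImplicit false

namespace Pool.Agent.Helper87.VM

open MvPolynomial Pool.Agent.Helper48.VMRT

theorem st_MAIN (hCEX : ST_CEX) (hFDEX : ST_FDEX) (hYPM : ST_YPM) (hYACT : ST_YACT)
    (hXEX : ST_XEX) (hBAD : ST_BAD) (hHCUR : ST_HCUR) (hHIRR : ST_HIRR) (hHLC : ST_HLC)
    (hTHR : ST_THR) (hISO : ST_ISO) : ST_MAIN := by
  intro w ι _ hι Zi G _ _ ρ hcl hcone hirr hne hsm hact htr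
  obtain ⟨κB, iB, dB, π, B, hB, hBf⟩ := hCEX G
  have hZcl : ZClosed (⋃ i, Zi i) := zclosed_iUnion hcl
  have hZcone : ∀ a : ℂ, ∀ z ∈ ⋃ i, Zi i, a • z ∈ ⋃ i, Zi i := by
    intro a z hz
    obtain ⟨i, hi⟩ := Set.mem_iUnion.1 hz
    exact Set.mem_iUnion.2 ⟨i, hcone i a z hi⟩
  have hZne : (⋃ i, Zi i).Nonempty := by
    obtain ⟨i⟩ := hι
    obtain ⟨z, hz, _⟩ := hne i
    exact ⟨z, Set.mem_iUnion.2 ⟨i, hz⟩⟩
  obtain ⟨ν, iν, dν, a, F, ρν, hF⟩ := hFDEX G w (⋃ i, Zi i) ρ hZcl hZcone hZne hsm hact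
  have hY := hYPM G ν w _ ρ a F ρν hF
  have hYa := hYACT G ν w _ ρ a F ρν hF
  have hG : 1 ≤ Fintype.card G := Fintype.card_pos
  have hk : 1 ≤ 2 * Fintype.card G := by omega
  obtain ⟨N, E, hE⟩ := hXEX G κB (Option (Fin w) × ν) π B (tens (oext ρ) ρν) (Yc F) w
    (2 * Fintype.card G) (2 * Fintype.card G * a + 2) hB hBf hY hYa hk (by omega) (by omega)
  let D : VD :=
    { G := G, w := w, ι := ι, Zi := Zi, ρ := ρ, κB := κB, π := π, B := B, ν := ν, a := a,
      F := F, ρν := ρν, N := N, k := 2 * Fintype.card G, t := 2 * Fintype.card G * a + 2,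
      E := E }
  have hD : D.Good :=
    { ine := hι
      Zcl := hcl
      ZZcl := hZcl
      Zcone := hcone
      Zirr := hirr
      Zne := hne
      Zact := hact
      trans := htr
      Bpm := hB
      Bfree := hBf
      fd := hF
      Ypm := hY
      Yact := hYa
      kpos := hk
      kG := by
        change 2 * Fintype.card G ≤ 2 * Fintype.card G + 1
        omega
      tbig := by
        change 2 * Fintype.card G * a + 1 < 2 * Fintype.card G * a + 2
        omega
      xd := hE }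
  obtain ⟨L, hL⟩ := hBAD D hD
  have hthr := hTHR D hD L hL
  refine ⟨N, D.dg, D.X, D.H, ?_, ?_, ?_, (L : Set (Fin (N + 1) → ℂ)), zclosed_submodule L,
    hthr.1, ?_⟩
  · exact
      { closed := hE.pm.closed
        cone := hE.pm.cone
        irred := hE.pm.irred
        exists_ne := hE.pm.exists_ne
        smooth := hE.pm.smooth }
  · exact
      { curve := fun c hc => (hHCUR D hD c hc).1
        irred := hHIRR D hD
        locallyClosed := (hHLC D hD).1 }
  · exact
      { isOpen := (hHLC D hD).2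
        general := ⟨(L : Set (Fin (N + 1) → ℂ)), zclosed_submodule L, hthr.1, hthr.2⟩ }
  · intro v hv hv0 hvL
    exact hISO D hD L hL v hv hv0 hvL

end Pool.Agent.Helper87.VM
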